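import Mathlib

set_option autoImplicit false

namespace Pool.Agent.Work.MP_a7579f_an

open Filter Topology Metric

/-- Heights of the centres of the bumps. -/
noncomputable def yy (n : ℕ) : ℝ := 4 * 2 ^ ((n+1)^2)

/-- Thresholds. -/
noncomputable def th (n : ℕ) : ℝ := (1/2) ^ ((n+1)^2)

noncomputable def hh (n : ℕ) (z : ℂ) : ℂ := (1 - z) / (2 - Complex.I * (yy n : ℂ) * (1 - z))

noncomputable def bb (n : ℕ) (s : ℝ) (z : ℂ) : ℂ := (hh n z) ^ ((s / ((n:ℝ) + 1) : ℝ) : ℂ)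

theorem yy_pos (n : ℕ) : 0 < yy n := by unfold yy; positivity

theorem th_pos (n : ℕ) : 0 < th n := by unfold th; positivity

theorem yy_th (n : ℕ) : yy n * th n = 4 := by
  unfold yy th
  rw [mul_assoc, ← mul_pow]
  norm_num

theorem yy_lt {n m : ℕ} (h : n < m) : 2 * yy n ≤ yy m := by
  unfold yy
  have h1 : (n+1)^2 + 1 ≤ (m+1)^2 := by
    have : n + 1 ≤ m := h
    nlinarith
  have h2 : (2:ℝ)^((n+1)^2+1) ≤ 2^((m+1)^2) := pow_le_pow_right₀ (by norm_num) h1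
  rw [pow_succ] at h2
  linarith

theorem normSq_le_of_mem {z : ℂ} (hz : z ∈ closedBall (0:ℂ) 1) : z.re^2 + z.im^2 ≤ 1 := by
  have h : ‖z‖ ≤ 1 := by simpa using hz
  have h2 : ‖z‖^2 ≤ 1 := by
    have := norm_nonneg z
    nlinarith
  rw [← Complex.normSq_eq_norm_sq, Complex.normSq_apply] at h2
  nlinarith

theorem den_ne {z : ℂ} (hz : z ∈ closedBall (0:ℂ) 1) (y : ℝ) :
    2 - Complex.I * (y : ℂ) * (1 - z) ≠ 0 := by
  intro h
  have h1 := normSq_le_of_mem hz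
  have hre := congrArg Complex.re h
  have him := congrArg Complex.im h
  simp at hre him
  -- hre : 2 - y * z.im ... = 0 ; him : ...
  rcases him with him | him
  · subst him; simp at hre
  · have h3 : z.re = 1 := by linarith
    rw [h3] at h1
    have h4 : z.im = 0 := by nlinarith [sq_nonneg z.im]
    rw [h4] at hre
    simp at hre

theorem re_lt_one {z : ℂ} (hz : z ∈ closedBall (0:ℂ) 1) (h1 : z ≠ 1) : z.re < 1 := by
  have h := normSq_le_of_mem hz
  by_contra hcon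
  push Not at hcon
  have h2 : z.re = 1 := by nlinarith [sq_nonneg z.im, sq_nonneg (z.re - 1)]
  have h3 : z.im = 0 := by
    rw [h2] at h
    nlinarith [sq_nonneg z.im]
  exact h1 (Complex.ext h2 h3)

/-- the half-plane variable -/
theorem re_zeta {z : ℂ} (hz : z ∈ closedBall (0:ℂ) 1) (h1 : z ≠ 1) : 1 ≤ (2 / (1 - z)).re := by
  have h := normSq_le_of_mem hz
  have h2 := re_lt_one hz h1
  rw [Complex.div_re]
  simp only [Complex.re_ofNat, Complex.im_ofNat, zero_mul, zero_div, add_zero, Complex.normSq_apply,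
    Complex.sub_re, Complex.one_re, Complex.sub_im, Complex.one_im]
  rw [le_div_iff₀]
  · nlinarith
  · nlinarith [sq_nonneg z.im, mul_pos (sub_pos.2 h2) (sub_pos.2 h2)]

theorem hh_inv {z : ℂ} (h1 : z ≠ 1) (n : ℕ) : hh n z = (2 / (1 - z) - Complex.I * (yy n : ℂ))⁻¹ := by
  unfold hh
  have h2 : (1 - z) ≠ 0 := sub_ne_zero.2 (Ne.symm h1)
  rw [show 2 / (1 - z) - Complex.I * (yy n : ℂ) = (2 - Complex.I * (yy n : ℂ) * (1 - z)) / (1 - z) by
    field_simp]
  rw [inv_div]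

theorem hh_one (n : ℕ) : hh n 1 = 0 := by simp [hh]

theorem re_inv_hh {z : ℂ} (hz : z ∈ closedBall (0:ℂ) 1) (h1 : z ≠ 1) (n : ℕ) :
    1 ≤ (2 / (1 - z) - Complex.I * (yy n : ℂ)).re := by
  have := re_zeta hz h1
  simpa using this

theorem hh_re_pos {z : ℂ} (hz : z ∈ closedBall (0:ℂ) 1) (h1 : z ≠ 1) (n : ℕ) : 0 < (hh n z).re := by
  rw [hh_inv h1]
  have h := re_inv_hh hz h1 n
  rw [Complex.inv_re]
  apply div_pos (by linarith)
  apply Complex.normSq_pos.2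
  intro h0
  rw [h0] at h
  simp at h
  linarith

theorem norm_inv_hh {z : ℂ} (hz : z ∈ closedBall (0:ℂ) 1) (h1 : z ≠ 1) (n : ℕ) :
    1 ≤ ‖2 / (1 - z) - Complex.I * (yy n : ℂ)‖ :=
  (re_inv_hh hz h1 n).trans (Complex.re_le_norm _)

theorem norm_hh_le {z : ℂ} (hz : z ∈ closedBall (0:ℂ) 1) (n : ℕ) : ‖hh n z‖ ≤ 1 := by
  by_cases h1 : z = 1
  · subst h1; simp [hh_one]
  · rw [hh_inv h1, norm_inv]
    exact inv_le_one_of_one_le₀ (norm_inv_hh hz h1 n)

theorem near_lt {z : ℂ} (hz : z ∈ closedBall (0:ℂ) 1) (h1 : z ≠ 1) {n : ℕ} (hn : th n < ‖hh n z‖) :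
    ‖2 / (1 - z) - Complex.I * (yy n : ℂ)‖ < yy n / 4 := by
  rw [hh_inv h1, norm_inv] at hn
  have h2 := norm_inv_hh hz h1 n
  have h3 := yy_th n
  have h4 := th_pos n
  have h5 := yy_pos n
  set D := ‖2 / (1 - z) - Complex.I * (yy n : ℂ)‖
  have h6 : th n * D < 1 := by
    have := mul_lt_mul_of_pos_right hn (by linarith : (0:ℝ) < D)
    rwa [inv_mul_cancel₀ (by linarith)] at this
  nlinarith

theorem near_unique {z : ℂ} (hz : z ∈ closedBall (0:ℂ) 1) {n m : ℕ} (hn : th n < ‖hh n z‖)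
    (hm : th m < ‖hh m z‖) (hnm : n < m) : False := by
  have h1 : z ≠ 1 := by
    rintro rfl
    rw [hh_one, norm_zero] at hn
    exact absurd hn (not_lt.2 (th_pos n).le)
  have h2 := near_lt hz h1 hn
  have h3 := near_lt hz h1 hm
  have h4 : ‖(Complex.I * (yy m : ℂ)) - Complex.I * (yy n : ℂ)‖ ≤
      ‖2 / (1 - z) - Complex.I * (yy n : ℂ)‖ + ‖2 / (1 - z) - Complex.I * (yy m : ℂ)‖ := by
    have := norm_sub_le (2 / (1 - z) - Complex.I * (yy n : ℂ)) (2 / (1 - z) - Complex.I * (yy m : ℂ))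
    rwa [show (2 / (1 - z) - Complex.I * (yy n : ℂ)) - (2 / (1 - z) - Complex.I * (yy m : ℂ)) =
      (Complex.I * (yy m : ℂ)) - Complex.I * (yy n : ℂ) by ring] at this
  have h5 : ‖(Complex.I * (yy m : ℂ)) - Complex.I * (yy n : ℂ)‖ = |yy m - yy n| := by
    rw [← mul_sub, norm_mul, Complex.norm_I, one_mul, ← Complex.ofReal_sub, Complex.norm_real,
      Real.norm_eq_abs]
  have h6 := yy_lt hnm
  have h7 := le_abs_self (yy m - yy n)
  have h8 := yy_pos n
  rw [h5] at h4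
  linarith

theorem exists_n0 : ∃ n0 : ℂ → ℕ, ∀ z ∈ closedBall (0:ℂ) 1, ∀ n, n ≠ n0 z → ‖hh n z‖ ≤ th n := by
  classical
  refine ⟨fun z => if h : ∃ n, th n < ‖hh n z‖ then Classical.choose h else 0, ?_⟩
  intro z hz n hn
  by_contra hcon
  push Not at hcon
  have hex : ∃ n, th n < ‖hh n z‖ := ⟨n, hcon⟩
  simp only [dif_pos hex] at hn
  have hs := Classical.choose_spec hex
  rcases lt_or_gt_of_ne hn with h | h
  · exact near_unique hz hcon hs h
  · exact near_unique hz hs hcon h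

noncomputable def n0 : ℂ → ℕ := Classical.choose exists_n0

theorem n0_spec {z : ℂ} (hz : z ∈ closedBall (0:ℂ) 1) {n : ℕ} (hn : n ≠ n0 z) : ‖hh n z‖ ≤ th n :=
  Classical.choose_spec exists_n0 z hz n hn

theorem norm_bb (n : ℕ) (s : ℝ) (z : ℂ) : ‖bb n s z‖ = ‖hh n z‖ ^ (s / ((n:ℝ) + 1)) := by
  unfold bb
  rw [Complex.norm_cpow_real]

theorem norm_bb_le_one {n : ℕ} {s : ℝ} (hs : 0 < s) {z : ℂ} (hz : z ∈ closedBall (0:ℂ) 1) :
    ‖bb n s z‖ ≤ 1 := by
  rw [norm_bb]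
  exact Real.rpow_le_one (norm_nonneg _) (norm_hh_le hz n) (by positivity)

/-- the geometric ratio -/
noncomputable def rr (s : ℝ) : ℝ := (1/2 : ℝ) ^ s

theorem rr_pos (s : ℝ) : 0 < rr s := by unfold rr; positivity

theorem rr_lt_one {s : ℝ} (hs : 0 < s) : rr s < 1 := by
  unfold rr
  exact Real.rpow_lt_one (by norm_num) (by norm_num) hs

theorem th_rpow (n : ℕ) (s : ℝ) : th n ^ (s / ((n:ℝ) + 1)) = rr s ^ (n+1) := by
  unfold th rr
  rw [← Real.rpow_natCast, ← Real.rpow_mul (by norm_num), ← Real.rpow_natCast, ← Real.rpow_mul (by norm_num)]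
  congr 1
  push_cast
  have : (n:ℝ) + 1 ≠ 0 := by positivity
  field_simp

theorem norm_bb_le_of_far {n : ℕ} {s : ℝ} (hs : 0 < s) {z : ℂ} (h : ‖hh n z‖ ≤ th n) :
    ‖bb n s z‖ ≤ rr s ^ (n+1) := by
  rw [norm_bb, ← th_rpow]
  exact Real.rpow_le_rpow (norm_nonneg _) h (by positivity)

theorem norm_bb_le {n : ℕ} {s : ℝ} (hs : 0 < s) {z : ℂ} (hz : z ∈ closedBall (0:ℂ) 1) (hn : n ≠ n0 z) :
    ‖bb n s z‖ ≤ rr s ^ (n+1) := norm_bb_le_of_far hs (n0_spec hz hn)

theorem summable_rr {s : ℝ} (hs : 0 < s) : Summable (fun n : ℕ => rr s ^ (n+1)) := by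
  have := summable_geometric_of_lt_one (rr_pos s).le (rr_lt_one hs)
  exact (summable_nat_add_iff 1).2 this

/-- the error function -/
noncomputable def er (s : ℝ) (z : ℂ) : ℝ := ∑' n, min ‖bb n s z‖ (rr s ^ (n+1))

theorem summable_er {s : ℝ} (hs : 0 < s) (z : ℂ) : Summable (fun n : ℕ => min ‖bb n s z‖ (rr s ^ (n+1))) := by
  refine Summable.of_nonneg_of_le (fun n => ?_) (fun n => min_le_right _ _) (summable_rr hs)
  exact le_min (norm_nonneg _) (pow_nonneg (rr_pos s).le _)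

theorem er_nonneg {s : ℝ} (z : ℂ) : 0 ≤ er s z := by
  apply tsum_nonneg
  intro n
  exact le_min (norm_nonneg _) (pow_nonneg (rr_pos s).le _)

theorem hh_continuousOn (n : ℕ) : ContinuousOn (hh n) (closedBall (0:ℂ) 1) := by
  unfold hh
  apply ContinuousOn.div (by fun_prop) (by fun_prop)
  intro z hz
  exact den_ne hz _

theorem hh_differentiableOn (n : ℕ) : DifferentiableOn ℂ (hh n) (ball (0:ℂ) 1) := by
  unfold hh
  apply DifferentiableOn.div (by fun_prop) (by fun_prop)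
  intro z hz
  exact den_ne (ball_subset_closedBall hz) _

theorem ne_one_of_mem_ball {z : ℂ} (hz : z ∈ ball (0:ℂ) 1) : z ≠ 1 := by
  rintro rfl
  simp at hz

theorem hh_slit {z : ℂ} (hz : z ∈ closedBall (0:ℂ) 1) (h1 : z ≠ 1) (n : ℕ) : hh n z ∈ Complex.slitPlane :=
  Or.inl (hh_re_pos hz h1 n)

theorem bb_continuousOn {n : ℕ} {s : ℝ} (hs : 0 < s) : ContinuousOn (bb n s) (closedBall (0:ℂ) 1) := by
  intro z hz
  unfold bb
  have h1 : ContinuousAt (fun x : ℂ × ℂ => x.1 ^ x.2) (hh n z, ((s / ((n:ℝ) + 1) : ℝ) : ℂ)) := by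
    apply Complex.continuousAt_cpow_of_re_pos
    · left
      by_cases h1 : z = 1
      · subst h1; simp [hh_one]
      · exact (hh_re_pos hz h1 n).le
    · simp only [Complex.ofReal_re]; positivity
  exact h1.comp_continuousWithinAt (f := fun z => (hh n z, ((s / ((n:ℝ) + 1) : ℝ) : ℂ)))
    ((hh_continuousOn n z hz).prodMk continuousWithinAt_const)

theorem bb_differentiableOn (n : ℕ) (s : ℝ) : DifferentiableOn ℂ (bb n s) (ball (0:ℂ) 1) := by
  unfold bb
  apply DifferentiableOn.cpow (hh_differentiableOn n) (differentiableOn_const _)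
  intro z hz
  exact hh_slit (ball_subset_closedBall hz) (ne_one_of_mem_ball hz) n

theorem bb_one {n : ℕ} {s : ℝ} (hs : 0 < s) : bb n s 1 = 0 := by
  unfold bb
  rw [hh_one, Complex.zero_cpow]
  intro h
  have h2 : s / ((n:ℝ) + 1) = 0 := by exact_mod_cast h
  have : 0 < s / ((n:ℝ) + 1) := by positivity
  linarith

theorem one_mem_closedBall : (1:ℂ) ∈ closedBall (0:ℂ) 1 := by simp

theorem bb_tendsto {n : ℕ} {s : ℝ} (hs : 0 < s) :
    Tendsto (fun z => ‖bb n s z‖) (𝓝[closedBall (0:ℂ) 1] 1) (𝓝 0) := by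
  have h := (bb_continuousOn (n := n) hs 1 one_mem_closedBall).norm
  unfold ContinuousWithinAt at h
  simpa [bb_one hs] using h

theorem er_tendsto {s : ℝ} (hs : 0 < s) :
    Tendsto (er s) (𝓝[closedBall (0:ℂ) 1] 1) (𝓝 0) := by
  unfold er
  have h := tendsto_tsum_of_dominated_convergence (𝓕 := 𝓝[closedBall (0:ℂ) 1] (1:ℂ))
    (f := fun z (n:ℕ) => min ‖bb n s z‖ (rr s ^ (n+1))) (g := fun _ => (0:ℝ))
    (bound := fun n : ℕ => rr s ^ (n+1)) (summable_rr hs) (by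
      intro n
      have h1 := (bb_tendsto (n := n) hs).min (tendsto_const_nhds (x := rr s ^ (n+1)))
      rwa [min_eq_left (pow_nonneg (rr_pos s).le _)] at h1) (by
      refine Eventually.of_forall (fun z n => ?_)
      rw [Real.norm_of_nonneg (le_min (norm_nonneg _) (pow_nonneg (rr_pos s).le _))]
      exact min_le_right _ _)
  simpa using h

/-- The lacunary sum of bumps. -/
noncomputable def UU (a : ℕ → ℂ) (s : ℝ) (z : ℂ) : ℂ := ∑' n, a n * bb n s z

theorem summable_UU {a : ℕ → ℂ} {C : ℝ} (ha : ∀ n, ‖a n‖ ≤ C) {s : ℝ} (hs : 0 < s) {z : ℂ}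
    (hz : z ∈ closedBall (0:ℂ) 1) : Summable (fun n => a n * bb n s z) := by
  have hC : 0 ≤ C := (norm_nonneg _).trans (ha 0)
  refine Summable.of_norm_bounded_eventually ((summable_rr hs).mul_left C) ?_
  have : {n : ℕ | ¬ ‖a n * bb n s z‖ ≤ C * rr s ^ (n+1)} ⊆ {n0 z} := by
    intro n hn
    by_contra hne
    apply hn
    rw [norm_mul]
    exact mul_le_mul (ha n) (norm_bb_le hs hz hne) (norm_nonneg _) hC
  exact (Set.finite_singleton _).subset this

theorem UU_main {a : ℕ → ℂ} {C : ℝ} (ha : ∀ n, ‖a n‖ ≤ C) {s : ℝ} (hs : 0 < s) {z : ℂ}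
    (hz : z ∈ closedBall (0:ℂ) 1) :
    ‖UU a s z - a (n0 z) * bb (n0 z) s z‖ ≤ C * er s z := by
  have hC : 0 ≤ C := (norm_nonneg _).trans (ha 0)
  unfold UU
  rw [(summable_UU ha hs hz).tsum_eq_add_tsum_ite (n0 z), add_sub_cancel_left]
  have hs2 : HasSum (fun n : ℕ => C * min ‖bb n s z‖ (rr s ^ (n+1))) (C * er s z) :=
    (summable_er hs z).hasSum.mul_left C
  apply tsum_of_norm_bounded hs2
  intro n
  split_ifs with h
  · rw [norm_zero]
    exact mul_nonneg hC (le_min (norm_nonneg _) (pow_nonneg (rr_pos s).le _))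
  · rw [norm_mul]
    apply mul_le_mul (ha n) _ (norm_nonneg _) hC
    exact le_min le_rfl (norm_bb_le hs hz h)


/-- The regularised sum, continuous on the closed disc. -/
noncomputable def GG (a : ℕ → ℂ) (s : ℝ) (z : ℂ) : ℂ := ∑' n, a n * ((1 - z) * bb n s z)

theorem th_le (n : ℕ) : th n ≤ (1/2)^(n+1) := by
  unfold th
  apply pow_le_pow_of_le_one (by norm_num) (by norm_num)
  nlinarith

theorem norm_one_sub_of_near {z : ℂ} (hz : z ∈ closedBall (0:ℂ) 1) {n : ℕ} (hn : th n < ‖hh n z‖) :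
    ‖1 - z‖ ≤ (1/2)^(n+1) := by
  have h1 : z ≠ 1 := by
    rintro rfl
    rw [hh_one, norm_zero] at hn
    exact absurd hn (not_lt.2 (th_pos n).le)
  have h2 := near_lt hz h1 hn
  have h3 : ‖Complex.I * (yy n : ℂ)‖ = yy n := by
    rw [norm_mul, Complex.norm_I, one_mul, Complex.norm_real, Real.norm_of_nonneg (yy_pos n).le]
  have h4 : yy n ≤ ‖2 / (1 - z)‖ + yy n / 4 := by
    have := norm_sub_norm_le (Complex.I * (yy n : ℂ)) (Complex.I * (yy n : ℂ) - 2 / (1 - z))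
    have h5 : ‖Complex.I * (yy n : ℂ) - 2 / (1 - z)‖ = ‖2 / (1 - z) - Complex.I * (yy n : ℂ)‖ :=
      norm_sub_rev _ _
    rw [h5, h3, sub_sub_cancel] at this
    linarith
  rw [norm_div] at h4
  have h6 : ‖(2:ℂ)‖ = 2 := by simp
  rw [h6] at h4
  have h7 : 0 < ‖1 - z‖ := norm_pos_iff.2 (sub_ne_zero.2 (Ne.symm h1))
  have h8 : 3/4 * yy n * ‖1 - z‖ ≤ 2 := by
    have h9 : 3/4 * yy n ≤ 2 / ‖1 - z‖ := by linarith
    rwa [le_div_iff₀ h7] at h9
  have h9 := yy_th n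
  have h10 := th_le n
  have h11 := th_pos n
  have h12 := yy_pos n
  -- 3/4*y*|1-z| ≤ 2 = (1/2) y th
  have h13 : ‖1 - z‖ ≤ th n := by
    by_contra hcon
    push Not at hcon
    have : yy n * th n < yy n * ‖1 - z‖ := mul_lt_mul_of_pos_left hcon h12
    nlinarith
  linarith

theorem norm_one_sub_mul_bb {s : ℝ} (hs : 0 < s) {z : ℂ} (hz : z ∈ closedBall (0:ℂ) 1) (n : ℕ) :
    ‖(1 - z) * bb n s z‖ ≤ 2 * rr s ^ (n+1) + (1/2)^(n+1) := by
  rw [norm_mul]
  have hz1 : ‖z‖ ≤ 1 := by simpa using hz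
  have h2 : ‖1 - z‖ ≤ 2 := by
    have := norm_sub_le (1:ℂ) z
    rw [norm_one] at this
    linarith
  have hr := pow_nonneg (rr_pos s).le (n+1)
  by_cases h : th n < ‖hh n z‖
  · have h3 := norm_one_sub_of_near hz h
    have h4 := norm_bb_le_one (n := n) hs hz
    have : ‖1 - z‖ * ‖bb n s z‖ ≤ ‖1 - z‖ * 1 := mul_le_mul_of_nonneg_left h4 (norm_nonneg _)
    linarith
  · push Not at h
    have h3 := norm_bb_le_of_far hs h
    have : ‖1 - z‖ * ‖bb n s z‖ ≤ 2 * rr s ^ (n+1) := mul_le_mul h2 h3 (norm_nonneg _) (by norm_num)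
    have h5 : (0:ℝ) ≤ (1/2)^(n+1) := by positivity
    linarith

theorem summable_bound {s : ℝ} (hs : 0 < s) (C : ℝ) :
    Summable (fun n : ℕ => C * (2 * rr s ^ (n+1) + (1/2:ℝ)^(n+1))) := by
  apply Summable.mul_left
  apply Summable.add
  · exact (summable_rr hs).mul_left 2
  · exact (summable_nat_add_iff 1).2 (summable_geometric_of_lt_one (by norm_num) (by norm_num))

theorem GG_bound {a : ℕ → ℂ} {C : ℝ} (ha : ∀ n, ‖a n‖ ≤ C) {s : ℝ} (hs : 0 < s) (n : ℕ) {z : ℂ}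
    (hz : z ∈ closedBall (0:ℂ) 1) :
    ‖a n * ((1 - z) * bb n s z)‖ ≤ C * (2 * rr s ^ (n+1) + (1/2:ℝ)^(n+1)) := by
  have hC : 0 ≤ C := (norm_nonneg _).trans (ha 0)
  rw [norm_mul]
  exact mul_le_mul (ha n) (norm_one_sub_mul_bb hs hz n) (norm_nonneg _) hC

theorem GG_continuousOn {a : ℕ → ℂ} {C : ℝ} (ha : ∀ n, ‖a n‖ ≤ C) {s : ℝ} (hs : 0 < s) :
    ContinuousOn (GG a s) (closedBall (0:ℂ) 1) := by
  unfold GG
  apply continuousOn_tsum _ (summable_bound hs C)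
  · intro n z hz
    exact GG_bound ha hs n hz
  · intro n
    exact continuousOn_const.mul ((continuousOn_const.sub continuousOn_id).mul (bb_continuousOn hs))

theorem GG_differentiableOn {a : ℕ → ℂ} {C : ℝ} (ha : ∀ n, ‖a n‖ ≤ C) {s : ℝ} (hs : 0 < s) :
    DifferentiableOn ℂ (GG a s) (ball (0:ℂ) 1) := by
  unfold GG
  apply Complex.differentiableOn_tsum_of_summable_norm (summable_bound hs C) _ isOpen_ball
  · intro n z hz
    exact GG_bound ha hs n (ball_subset_closedBall hz)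
  · intro n
    exact (differentiableOn_const _).mul (((differentiableOn_const _).sub differentiableOn_id).mul
      (bb_differentiableOn n s))

theorem GG_eq (a : ℕ → ℂ) (s : ℝ) (z : ℂ) : GG a s z = (1 - z) * UU a s z := by
  unfold GG UU
  rw [← tsum_mul_left]
  congr 1
  funext n
  ring

theorem UU_eq (a : ℕ → ℂ) (s : ℝ) {z : ℂ} (h1 : z ≠ 1) : UU a s z = GG a s z / (1 - z) := by
  rw [GG_eq, mul_div_cancel_left₀ _ (sub_ne_zero.2 (Ne.symm h1))]

theorem UU_differentiableOn {a : ℕ → ℂ} {C : ℝ} (ha : ∀ n, ‖a n‖ ≤ C) {s : ℝ} (hs : 0 < s) :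
    DifferentiableOn ℂ (UU a s) (ball (0:ℂ) 1) := by
  have h : DifferentiableOn ℂ (fun z => GG a s z / (1 - z)) (ball (0:ℂ) 1) := by
    apply (GG_differentiableOn ha hs).div (by fun_prop)
    intro z hz
    exact sub_ne_zero.2 (Ne.symm (ne_one_of_mem_ball hz))
  exact h.congr (fun z hz => UU_eq a s (ne_one_of_mem_ball hz))

theorem er_le {s : ℝ} (hs : 0 < s) (z : ℂ) : er s z ≤ ∑' n : ℕ, rr s ^ (n+1) :=
  (summable_er hs z).tsum_le_tsum (fun n => min_le_right _ _) (summable_rr hs)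

theorem UU_norm_le {a : ℕ → ℂ} {C : ℝ} (ha : ∀ n, ‖a n‖ ≤ C) {s : ℝ} (hs : 0 < s) {z : ℂ}
    (hz : z ∈ closedBall (0:ℂ) 1) : ‖UU a s z‖ ≤ C + C * er s z := by
  have hC : 0 ≤ C := (norm_nonneg _).trans (ha 0)
  have h1 := UU_main ha hs hz
  have h2 : ‖a (n0 z) * bb (n0 z) s z‖ ≤ C := by
    rw [norm_mul]
    calc _ ≤ C * 1 := mul_le_mul (ha _) (norm_bb_le_one hs hz) (norm_nonneg _) hC
      _ = C := mul_one C
  have h3 := norm_sub_norm_le (UU a s z) (a (n0 z) * bb (n0 z) s z)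
  linarith

theorem UU_bounded {a : ℕ → ℂ} {C : ℝ} (ha : ∀ n, ‖a n‖ ≤ C) {s : ℝ} (hs : 0 < s) :
    ∃ D : ℝ, ∀ z ∈ closedBall (0:ℂ) 1, ‖UU a s z‖ ≤ D := by
  have hC : 0 ≤ C := (norm_nonneg _).trans (ha 0)
  refine ⟨C + C * ∑' n : ℕ, rr s ^ (n+1), fun z hz => ?_⟩
  have h1 := UU_norm_le ha hs hz
  have h2 := mul_le_mul_of_nonneg_left (er_le hs z) hC
  linarith

theorem UU_limsup {a : ℕ → ℂ} {C : ℝ} (ha : ∀ n, ‖a n‖ ≤ C) {s : ℝ} (hs : 0 < s) {ε : ℝ} (hε : 0 < ε) :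
    ∀ᶠ z in 𝓝[closedBall (0:ℂ) 1] 1, ‖UU a s z‖ ≤ C + ε := by
  have hC : 0 ≤ C := (norm_nonneg _).trans (ha 0)
  have h1 : Tendsto (fun z => C * er s z) (𝓝[closedBall (0:ℂ) 1] 1) (𝓝 (C * 0)) :=
    (er_tendsto hs).const_mul C
  rw [mul_zero] at h1
  have h2 := h1.eventually (gt_mem_nhds hε)
  filter_upwards [h2, self_mem_nhdsWithin] with z hz1 hz2
  have := UU_norm_le ha hs hz2
  linarith

theorem UU_linear {a b : ℕ → ℂ} {C D : ℝ} (ha : ∀ n, ‖a n‖ ≤ C) (hb : ∀ n, ‖b n‖ ≤ D) (c : ℂ) {s : ℝ} (hs : 0 < s) {z : ℂ}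
    (hz : z ∈ closedBall (0:ℂ) 1) : UU (fun n => a n + c * b n) s z = UU a s z + c * UU b s z := by
  unfold UU
  rw [← tsum_mul_left, ← (summable_UU ha hs hz).tsum_add ((summable_UU hb hs hz).mul_left c)]
  congr 1
  funext n
  ring

theorem bb_mul (n : ℕ) {s s' : ℝ} (hs : 0 < s) (hs' : 0 < s') (z : ℂ) :
    bb n s z * bb n s' z = bb n (s + s') z := by
  unfold bb
  by_cases h : hh n z = 0
  · rw [h, Complex.zero_cpow, zero_mul, Complex.zero_cpow]
    · have : 0 < (s + s') / ((n:ℝ) + 1) := by positivity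
      exact_mod_cast this.ne'
    · have : 0 < s / ((n:ℝ) + 1) := by positivity
      exact_mod_cast this.ne'
  · rw [← Complex.cpow_add _ _ h]
    congr 1
    push_cast
    ring

theorem tendsto_zero_of_bound {f : ℂ → ℂ} {g : ℂ → ℝ}
    (hfg : ∀ z ∈ closedBall (0:ℂ) 1, ‖f z‖ ≤ g z) (hg : Tendsto g (𝓝[closedBall (0:ℂ) 1] 1) (𝓝 0)) :
    Tendsto f (𝓝[closedBall (0:ℂ) 1] 1) (𝓝 0) := by
  apply squeeze_zero_norm' _ hg
  filter_upwards [self_mem_nhdsWithin] with z hz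
  exact hfg z hz

theorem UU_mul {a b : ℕ → ℂ} {C D : ℝ} (ha : ∀ n, ‖a n‖ ≤ C) (hb : ∀ n, ‖b n‖ ≤ D) {s s' : ℝ}
    (hs : 0 < s) (hs' : 0 < s') :
    Tendsto (fun z => UU a s z * UU b s' z - UU (fun n => a n * b n) (s + s') z)
      (𝓝[closedBall (0:ℂ) 1] 1) (𝓝 0) := by
  have hC : 0 ≤ C := (norm_nonneg _).trans (ha 0)
  have hD : 0 ≤ D := (norm_nonneg _).trans (hb 0)
  have hss : 0 < s + s' := add_pos hs hs'
  have hab : ∀ n, ‖a n * b n‖ ≤ C * D := fun n => by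
    rw [norm_mul]; exact mul_le_mul (ha n) (hb n) (norm_nonneg _) hC
  apply tendsto_zero_of_bound (g := fun z => C * er s z * (D + D * er s' z) + C * (D * er s' z) + C * D * er (s + s') z)
  · intro z hz
    have h1 := UU_main ha hs hz
    have h2 := UU_main hb hs' hz
    have h3 := UU_main hab hss hz
    have h4 := UU_norm_le hb hs' hz
    have h5 : ‖a (n0 z) * bb (n0 z) s z‖ ≤ C := by
      rw [norm_mul]
      calc _ ≤ C * 1 := mul_le_mul (ha _) (norm_bb_le_one hs hz) (norm_nonneg _) hC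
        _ = C := mul_one C
    have key : UU a s z * UU b s' z - UU (fun n => a n * b n) (s + s') z =
        (UU a s z - a (n0 z) * bb (n0 z) s z) * UU b s' z
        + (a (n0 z) * bb (n0 z) s z) * (UU b s' z - b (n0 z) * bb (n0 z) s' z)
        - (UU (fun n => a n * b n) (s + s') z - (a (n0 z) * b (n0 z)) * bb (n0 z) (s + s') z) := by
      rw [← bb_mul (n0 z) hs hs' z]
      ring
    rw [key]
    refine (norm_sub_le _ _).trans (add_le_add ((norm_add_le _ _).trans (add_le_add ?_ ?_)) h3)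
    · rw [norm_mul]
      exact mul_le_mul h1 h4 (norm_nonneg _) (mul_nonneg hC (er_nonneg z))
    · rw [norm_mul]
      exact mul_le_mul h5 h2 (norm_nonneg _) hC
  · have e1 := er_tendsto hs
    have e2 := er_tendsto hs'
    have e3 := er_tendsto hss
    have := (((e1.const_mul C).mul ((e2.const_mul D).const_add D)).add ((e2.const_mul D).const_mul C)).add
      (e3.const_mul (C * D))
    simpa using this

theorem im_bb_le {n : ℕ} {s : ℝ} (hs : 0 < s) {z : ℂ} (hz : z ∈ closedBall (0:ℂ) 1) :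
    |(bb n s z).im| ≤ Real.pi * (s / ((n:ℝ) + 1)) := by
  have hpos : 0 < s / ((n:ℝ) + 1) := by positivity
  by_cases h : hh n z = 0
  · unfold bb
    rw [h, Complex.zero_cpow]
    · simp only [Complex.zero_im, abs_zero]; positivity
    · exact_mod_cast hpos.ne'
  · unfold bb
    have h1 : ‖(hh n z) ^ ((s / ((n:ℝ) + 1) : ℝ) : ℂ)‖ ≤ 1 := norm_bb_le_one hs hz
    rw [Complex.cpow_def_of_ne_zero h] at h1 ⊢
    rw [Complex.exp_im]
    rw [Complex.norm_exp] at h1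
    have h2 : (Complex.log (hh n z) * ((s / ((n:ℝ) + 1) : ℝ) : ℂ)).im = (hh n z).arg * (s / ((n:ℝ) + 1)) := by
      rw [Complex.mul_im, Complex.ofReal_im, Complex.ofReal_re, Complex.log_im]
      ring
    rw [h2, abs_mul, abs_of_pos (Real.exp_pos _)]
    have h3 : |Real.sin ((hh n z).arg * (s / ((n:ℝ) + 1)))| ≤ |(hh n z).arg * (s / ((n:ℝ) + 1))| := by
      exact Real.abs_sin_le_abs
    have h4 : |(hh n z).arg * (s / ((n:ℝ) + 1))| ≤ Real.pi * (s / ((n:ℝ) + 1)) := by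
      rw [abs_mul, abs_of_pos hpos]
      exact mul_le_mul_of_nonneg_right (Complex.abs_arg_le_pi _) hpos.le
    calc _ ≤ 1 * |Real.sin ((hh n z).arg * (s / ((n:ℝ) + 1)))| :=
          mul_le_mul_of_nonneg_right h1 (abs_nonneg _)
      _ ≤ _ := by rw [one_mul]; exact h3.trans h4

theorem im_bb_small {s : ℝ} (hs : 0 < s) {ε : ℝ} (hε : 0 < ε) :
    ∀ᶠ z in 𝓝[closedBall (0:ℂ) 1] 1, ∀ n, |(bb n s z).im| ≤ ε := by
  obtain ⟨N, hN⟩ : ∃ N : ℕ, ∀ n, N ≤ n → Real.pi * (s / ((n:ℝ) + 1)) ≤ ε := by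
    obtain ⟨N, hN⟩ := exists_nat_gt (Real.pi * s / ε)
    refine ⟨N, fun n hn => ?_⟩
    have h1 : (N:ℝ) ≤ n := by exact_mod_cast hn
    rw [← mul_div_assoc, div_le_iff₀ (by positivity)]
    rw [div_lt_iff₀ hε] at hN
    nlinarith
  have h1 : ∀ᶠ z in 𝓝[closedBall (0:ℂ) 1] (1:ℂ), ∀ n ∈ Finset.range N, ‖bb n s z‖ < ε := by
    rw [Finset.eventually_all]
    intro n _
    exact (bb_tendsto (n := n) hs).eventually (gt_mem_nhds hε)
  filter_upwards [h1, self_mem_nhdsWithin] with z hz1 hz2 n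
  by_cases h : n < N
  · exact (Complex.abs_im_le_norm _).trans (hz1 n (Finset.mem_range.2 h)).le
  · exact (im_bb_le hs hz2).trans (hN n (not_lt.1 h))

theorem UU_one_im {s : ℝ} (hs : 0 < s) {ε : ℝ} (hε : 0 < ε) :
    ∀ᶠ z in 𝓝[closedBall (0:ℂ) 1] 1, |(UU (fun _ => 1) s z).im| ≤ ε := by
  have h1 : ∀ n : ℕ, ‖(fun _ => (1:ℂ)) n‖ ≤ (1:ℝ) := fun n => by simp
  have h2 := (er_tendsto hs).eventually (gt_mem_nhds (half_pos hε))
  filter_upwards [h2, im_bb_small hs (half_pos hε), self_mem_nhdsWithin] with z hz1 hz2 hz3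
  have h3 := UU_main h1 hs hz3
  have h4 := hz2 (n0 z)
  have h5 : (UU (fun _ => 1) s z).im = (UU (fun _ => 1) s z - 1 * bb (n0 z) s z).im + (bb (n0 z) s z).im := by
    rw [one_mul, Complex.sub_im]; ring
  rw [h5]
  have h6 := (Complex.abs_im_le_norm (UU (fun _ => 1) s z - 1 * bb (n0 z) s z)).trans h3
  have h7 := abs_add_le ((UU (fun _ => 1) s z - 1 * bb (n0 z) s z).im) ((bb (n0 z) s z).im)
  linarith

theorem UU_unimod {Z : ℕ → ℂ} (hZ : ∀ n, ‖Z n‖ = 1) {s : ℝ} (hs : 0 < s) {ε : ℝ} (hε : 0 < ε) :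
    ∀ᶠ z in 𝓝[closedBall (0:ℂ) 1] 1, ‖UU (fun _ => 1) s z‖ ≤ ‖UU Z s z‖ + ε := by
  have h1 : ∀ n : ℕ, ‖(fun _ => (1:ℂ)) n‖ ≤ (1:ℝ) := fun n => by simp
  have h2 := (er_tendsto hs).eventually (gt_mem_nhds (half_pos hε))
  filter_upwards [h2, self_mem_nhdsWithin] with z hz1 hz3
  have h3 := UU_main h1 hs hz3
  have h4 := UU_main (fun n => (hZ n).le) hs hz3
  have h5 : ‖Z (n0 z) * bb (n0 z) s z‖ = ‖(1:ℂ) * bb (n0 z) s z‖ := by
    rw [norm_mul, norm_mul, hZ, norm_one]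
  have h6 := norm_sub_norm_le (UU (fun _ => 1) s z) (1 * bb (n0 z) s z)
  have h7 := norm_sub_norm_le (Z (n0 z) * bb (n0 z) s z) (UU Z s z)
  rw [norm_sub_rev] at h7
  linarith

/-- sampling points -/
noncomputable def zn (n : ℕ) : ℂ := 1 - 2 / (2 + Complex.I * (yy n : ℂ))

theorem zn_den_ne (n : ℕ) : (2 + Complex.I * (yy n : ℂ)) ≠ 0 := by
  intro h
  have := congrArg Complex.re h
  simp at this

theorem zn_mem (n : ℕ) : zn n ∈ ball (0:ℂ) 1 := by
  have h0 := zn_den_ne n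
  have h1 : zn n = Complex.I * (yy n : ℂ) / (2 + Complex.I * (yy n : ℂ)) := by
    unfold zn; field_simp; ring
  rw [mem_ball_zero_iff, h1, norm_div, div_lt_one (norm_pos_iff.2 h0)]
  have h2 : ‖Complex.I * (yy n : ℂ)‖ = yy n := by
    rw [norm_mul, Complex.norm_I, one_mul, Complex.norm_real, Real.norm_of_nonneg (yy_pos n).le]
  rw [h2]
  have h3 : ‖(2 + Complex.I * (yy n : ℂ))‖^2 = 4 + yy n ^2 := by
    rw [← Complex.normSq_eq_norm_sq, Complex.normSq_apply]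
    simp
    ring
  have h4 := yy_pos n
  by_contra hcon
  push Not at hcon
  have h5 := norm_nonneg (2 + Complex.I * (yy n : ℂ))
  nlinarith

theorem zn_ne (n : ℕ) : zn n ≠ 1 := ne_one_of_mem_ball (zn_mem n)

theorem hh_zn (n : ℕ) : hh n (zn n) = 1/2 := by
  rw [hh_inv (zn_ne n)]
  have h0 := zn_den_ne n
  have : 2 / (1 - zn n) = 2 + Complex.I * (yy n : ℂ) := by
    unfold zn
    rw [sub_sub_cancel]
    field_simp
  rw [this]
  ring_nf

theorem yy_tendsto : Tendsto yy atTop atTop := by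
  apply tendsto_atTop_mono (f := fun n : ℕ => (n:ℝ)) _ tendsto_natCast_atTop_atTop
  intro n
  unfold yy
  have h1 : (n:ℝ) < 2^((n+1)^2) := by
    have h2 : n < 2^((n+1)^2) := by
      calc n < 2^n := Nat.lt_two_pow_self
        _ ≤ 2^((n+1)^2) := Nat.pow_le_pow_right (by norm_num) (by nlinarith)
    exact_mod_cast h2
  have h3 : (0:ℝ) ≤ n := Nat.cast_nonneg n
  linarith

theorem zn_tendsto : Tendsto zn atTop (𝓝 1) := by
  have h1 : Tendsto (fun n => 2 / (2 + Complex.I * (yy n : ℂ))) atTop (𝓝 0) := by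
    apply squeeze_zero_norm (a := fun n => 2 / yy n)
    · intro n
      rw [norm_div]
      have h2 : ‖(2:ℂ)‖ = 2 := by simp
      rw [h2]
      apply div_le_div_of_nonneg_left (by norm_num) (yy_pos n)
      have h3 := Complex.abs_im_le_norm (2 + Complex.I * (yy n : ℂ))
      have h4 : (2 + Complex.I * (yy n : ℂ)).im = yy n := by simp
      rw [h4, abs_of_pos (yy_pos n)] at h3
      exact h3
    · exact yy_tendsto.const_div_atTop 2
  have h2 := h1.const_sub (1:ℂ)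
  rw [sub_zero] at h2
  exact h2

theorem zn_tendsto_within : Tendsto zn atTop (𝓝[closedBall (0:ℂ) 1] 1) := by
  rw [tendsto_nhdsWithin_iff]
  exact ⟨zn_tendsto, Eventually.of_forall (fun n => ball_subset_closedBall (zn_mem n))⟩

theorem n0_zn {n : ℕ} (hn : 1 ≤ n) : n0 (zn n) = n := by
  by_contra hne
  have h := n0_spec (ball_subset_closedBall (zn_mem n)) (Ne.symm hne)
  rw [hh_zn] at h
  have h2 : th n < 1/2 := by
    unfold th
    calc (1/2:ℝ)^((n+1)^2) ≤ (1/2)^2 := by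
          apply pow_le_pow_of_le_one (by norm_num) (by norm_num)
          nlinarith
      _ < 1/2 := by norm_num
  have h3 : ‖(1/2:ℂ)‖ = 1/2 := by simp
  rw [h3] at h
  linarith

theorem bb_zn_tendsto (s : ℝ) : Tendsto (fun n => bb n s (zn n)) atTop (𝓝 1) := by
  have h1 : (fun n => bb n s (zn n)) = fun n : ℕ => ((1/2:ℂ)) ^ ((s / ((n:ℝ) + 1) : ℝ) : ℂ) := by
    funext n
    unfold bb
    rw [hh_zn]
  rw [h1]
  have h2 : Tendsto (fun n : ℕ => ((s / ((n:ℝ) + 1) : ℝ) : ℂ)) atTop (𝓝 ((0:ℝ):ℂ)) := by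
    apply (Complex.continuous_ofReal.tendsto _).comp
    have := (tendsto_one_div_add_atTop_nhds_zero_nat (𝕜 := ℝ)).const_mul s
    rw [mul_zero] at this
    refine this.congr (fun n => ?_)
    ring
  have h3 : ContinuousAt (fun w : ℂ => (1/2:ℂ) ^ w) ((0:ℝ):ℂ) :=
    continuousAt_const_cpow (by norm_num)
  have h4 := h3.tendsto.comp h2
  simpa [Function.comp_def] using h4

theorem UU_zn {a : ℕ → ℂ} {C : ℝ} (ha : ∀ n, ‖a n‖ ≤ C) {s : ℝ} (hs : 0 < s) :
    Tendsto (fun n => UU a s (zn n) - a n) atTop (𝓝 0) := by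
  have hC : 0 ≤ C := (norm_nonneg _).trans (ha 0)
  have h1 : Tendsto (fun n => C * er s (zn n) + C * ‖bb n s (zn n) - 1‖) atTop (𝓝 0) := by
    have e1 := (er_tendsto hs).comp zn_tendsto_within
    have e2 := ((bb_zn_tendsto s).sub_const 1).norm
    rw [sub_self, norm_zero] at e2
    have := (e1.const_mul C).add (e2.const_mul C)
    simpa using this
  apply squeeze_zero_norm' _ h1
  filter_upwards [eventually_ge_atTop 1] with n hn
  have h2 := UU_main ha hs (ball_subset_closedBall (zn_mem n))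
  rw [n0_zn hn] at h2
  have h3 : UU a s (zn n) - a n = (UU a s (zn n) - a n * bb n s (zn n)) + a n * (bb n s (zn n) - 1) := by
    ring
  rw [h3]
  refine (norm_add_le _ _).trans (add_le_add h2 ?_)
  rw [norm_mul]
  exact mul_le_mul_of_nonneg_right (ha n) (norm_nonneg _)

end Pool.Agent.Work.MP_a7579f_an
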