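import Mathlib

set_option autoImplicit false

namespace Pool.Agent.Work.MP_a7579f_an

open Filter Topology Metric

theorem peak_est {z : ℂ} (hz : z ∈ ball (0:ℂ) 1) :
    ‖(1/2:ℂ) * (1 + z)‖ ^ 2 ≤ 1 - ‖z - 1‖^2/4 := by
  have h1 : ‖z‖ < 1 := by simpa using hz
  have h2 : ‖z‖^2 ≤ 1 := by
    have := norm_nonneg z
    nlinarith
  rw [norm_mul, mul_pow]
  have h3 : ‖(1/2:ℂ)‖ = 1/2 := by simp
  rw [h3]
  rw [← Complex.normSq_eq_norm_sq, Complex.normSq_apply] at h2 ⊢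
  rw [← Complex.normSq_eq_norm_sq, Complex.normSq_apply]
  simp
  nlinarith

section abstract_algebra

variable {B : Type*} [NormedCommRing B] [NormedAlgebra ℂ B] [CompleteSpace B] [NormOneClass B]
set_option linter.unusedSectionVars false

/-- The axioms of a uniform algebra on the disc, given by evaluations. -/
structure Evals (e : Metric.ball (0:ℂ) 1 → B →ₐ[ℂ] ℂ) : Prop where
  le_norm : ∀ (f : B) z, ‖e z f‖ ≤ ‖f‖
  norm_le : ∀ (f : B) (C : ℝ), 0 ≤ C → (∀ z, ‖e z f‖ ≤ C) → ‖f‖ ≤ C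

theorem hom_norm_le (φ : B →ₐ[ℂ] ℂ) (f : B) : ‖φ f‖ ≤ ‖f‖ := AlgHom.norm_apply_le_self φ f

/-- Multiplying by powers of a peak function: only the behaviour near `1` matters. -/
theorem localize {e : Metric.ball (0:ℂ) 1 → B →ₐ[ℂ] ℂ} (he : Evals e) {idX : B} (hid : ∀ z, e z idX = z)
    (f : B) {C : ℝ} (hC : 0 ≤ C)
    (hf : ∀ᶠ z in 𝓝[closedBall (0:ℂ) 1] (1:ℂ), ∀ hz : z ∈ ball (0:ℂ) 1, ‖e ⟨z, hz⟩ f‖ ≤ C)
    {ε : ℝ} (hε : 0 < ε) :
    ∃ g : B, ‖g‖ ≤ C + ε ∧ ∀ φ : B →ₐ[ℂ] ℂ, φ idX = 1 → φ g = φ f := by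
  rw [Filter.Eventually, Metric.mem_nhdsWithin_iff] at hf
  obtain ⟨δ, hδ, hf⟩ := hf
  -- shrink δ so that δ ≤ 1
  set δ' := min δ 1 with hδ'
  have hδ'0 : 0 < δ' := lt_min hδ one_pos
  have hδ'1 : δ' ≤ 1 := min_le_right _ _
  set q := Real.sqrt (1 - δ'^2/4) with hq
  have hq0 : 0 ≤ q := Real.sqrt_nonneg _
  have hq2 : q^2 = 1 - δ'^2/4 := Real.sq_sqrt (by nlinarith)
  have hq1 : q < 1 := by
    rw [hq, Real.sqrt_lt' one_pos]
    nlinarith
  obtain ⟨N, hN⟩ := exists_pow_lt_of_lt_one (show 0 < ε / (‖f‖ + 1) by positivity) hq1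
  set p : B := (1/2:ℂ) • (1 + idX) with hp
  have hpφ : ∀ φ : B →ₐ[ℂ] ℂ, φ p = (1/2:ℂ) * (1 + φ idX) := by
    intro φ
    rw [hp, map_smul, map_add, map_one, smul_eq_mul]
  refine ⟨p ^ N * f, ?_, ?_⟩
  · apply he.norm_le _ _ (by linarith)
    intro z
    rw [map_mul, map_pow, norm_mul, norm_pow, hpφ, hid]
    have h2 := peak_est z.2
    have h3 : ‖(1/2:ℂ) * (1 + z)‖ ≤ 1 := by
      have := norm_nonneg ((1/2:ℂ) * (1 + (z:ℂ)))
      nlinarith [sq_nonneg ‖(z:ℂ) - 1‖]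
    by_cases hz : ‖(z:ℂ) - 1‖ < δ'
    · have h4 : ‖e z f‖ ≤ C := by
        have h5 := hf ⟨by rw [mem_ball, dist_eq_norm]; exact hz.trans_le (min_le_left _ _),
          ball_subset_closedBall z.2⟩
        exact h5 z.2
      have h5 : ‖(1/2:ℂ) * (1 + (z:ℂ))‖ ^ N ≤ 1 := pow_le_one₀ (norm_nonneg _) h3
      calc _ ≤ 1 * C := mul_le_mul h5 h4 (norm_nonneg _) zero_le_one
        _ ≤ C + ε := by linarith
    · push Not at hz
      have h4 : ‖(1/2:ℂ) * (1 + (z:ℂ))‖ ≤ q := by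
        apply le_of_sq_le_sq _ hq0
        rw [hq2]
        nlinarith
      have h5 : ‖(1/2:ℂ) * (1 + (z:ℂ))‖ ^ N ≤ q ^ N := pow_le_pow_left₀ (norm_nonneg _) h4 N
      have h6 := he.le_norm f z
      calc _ ≤ q^N * ‖f‖ := mul_le_mul h5 h6 (norm_nonneg _) (pow_nonneg hq0 N)
        _ ≤ (ε / (‖f‖ + 1)) * ‖f‖ := mul_le_mul_of_nonneg_right hN.le (norm_nonneg _)
        _ ≤ ε := by
          rw [div_mul_eq_mul_div, div_le_iff₀ (by positivity)]
          nlinarith [norm_nonneg f]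
        _ ≤ C + ε := by linarith
  · intro φ hφ
    have : φ p = 1 := by
      rw [hpφ, hφ]
      norm_num
    rw [map_mul, map_pow, this, one_pow, one_mul]

/-- Characters over `1` are controlled by the behaviour near `1`. -/
theorem hom_le_near {e : Metric.ball (0:ℂ) 1 → B →ₐ[ℂ] ℂ} (he : Evals e) {idX : B} (hid : ∀ z, e z idX = z)
    (f : B) {C : ℝ} (hC : 0 ≤ C)
    (hf : ∀ᶠ z in 𝓝[closedBall (0:ℂ) 1] (1:ℂ), ∀ hz : z ∈ ball (0:ℂ) 1, ‖e ⟨z, hz⟩ f‖ ≤ C)
    (φ : B →ₐ[ℂ] ℂ) (hφ : φ idX = 1) : ‖φ f‖ ≤ C := by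
  apply le_of_forall_pos_le_add
  intro ε hε
  obtain ⟨g, hg, hg'⟩ := localize he hid f hC hf hε
  rw [← hg' φ hφ]
  exact (hom_norm_le φ g).trans hg

theorem hom_eq_zero_near {e : Metric.ball (0:ℂ) 1 → B →ₐ[ℂ] ℂ} (he : Evals e) {idX : B} (hid : ∀ z, e z idX = z)
    (f : B) (F : ℂ → ℂ) (hfF : ∀ z, e z f = F z)
    (hf : Tendsto F (𝓝[closedBall (0:ℂ) 1] 1) (𝓝 0))
    (φ : B →ₐ[ℂ] ℂ) (hφ : φ idX = 1) : φ f = 0 := by
  rw [← norm_le_zero_iff]
  apply le_of_forall_pos_le_add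
  intro ε hε
  rw [zero_add]
  apply hom_le_near he hid f hε.le _ φ hφ
  have h1 := hf.norm.eventually (gt_mem_nhds (show ‖(0:ℂ)‖ < ε by simpa using hε))
  filter_upwards [h1] with z hz hz'
  rw [hfF]
  exact hz.le

/-- The Moebius trick: characters in the same part cannot be separated asymptotically. -/
theorem moebius_contra {e : Metric.ball (0:ℂ) 1 → B →ₐ[ℂ] ℂ} (he : Evals e) (χ ψ : B →ₐ[ℂ] ℂ) {c : ℝ}
    (hc : c < 2) (hχψ : ∀ f : B, ‖f‖ ≤ 1 → ‖χ f - ψ f‖ ≤ c) (f : ℕ → B) (hf : ∀ k, ‖f k‖ ≤ 1)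
    (h0 : Tendsto (fun k => χ (f k)) atTop (𝓝 0)) (h1 : Tendsto (fun k => ‖ψ (f k)‖) atTop (𝓝 1)) : False := by
  obtain ⟨a, ha0, ha1, hac⟩ : ∃ a : ℝ, 0 ≤ a ∧ a < 1 ∧ c < 1 + a := by
    refine ⟨max 0 ((c - 1 + 1)/2), le_max_left _ _, ?_, ?_⟩
    · apply max_lt one_pos; linarith
    · by_cases h : 0 ≤ (c-1+1)/2
      · rw [max_eq_right h]; linarith
      · push Not at h
        have := le_max_left 0 ((c-1+1)/2)
        linarith
  have key : ∀ g : B, ‖g‖ ≤ 1 →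
      ‖(χ g - a) / (1 - a * χ g) - (ψ g - a) / (1 - a * ψ g)‖ ≤ c := by
    intro g hg
    have hu : IsUnit (1 - (a:ℂ) • g) := by
      apply isUnit_one_sub_of_norm_lt_one
      rw [norm_smul, Complex.norm_real, Real.norm_of_nonneg ha0]
      nlinarith [norm_nonneg g]
    obtain ⟨v, hv⟩ := hu.exists_right_inv
    set w := (g - (a:ℂ) • (1:B)) * v with hw
    have hval : ∀ φ : B →ₐ[ℂ] ℂ, φ w = (φ g - a) / (1 - a * φ g) := by
      intro φ
      have h2 := congrArg φ hv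
      rw [map_mul, map_sub, map_smul, map_one, smul_eq_mul] at h2
      have h3 : (1 - (a:ℂ) * φ g) ≠ 0 := left_ne_zero_of_mul_eq_one h2
      rw [eq_div_iff h3, hw, map_mul, map_sub, map_smul, map_one, smul_eq_mul, mul_one]
      calc (φ g - a) * φ v * (1 - a * φ g) = (φ g - a) * ((1 - a * φ g) * φ v) := by ring
        _ = _ := by rw [h2, mul_one]
    have hwn : ‖w‖ ≤ 1 := by
      apply he.norm_le _ _ zero_le_one
      intro z
      rw [hval]
      have hx : ‖e z g‖ ≤ 1 := (he.le_norm g z).trans hg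
      set x := e z g
      have hden : (1 - (a:ℂ) * x) ≠ 0 := by
        intro h
        have h5 : (a:ℂ) * x = 1 := (sub_eq_zero.1 h).symm
        have h6 := congrArg norm h5
        rw [norm_mul, Complex.norm_real, Real.norm_of_nonneg ha0, norm_one] at h6
        nlinarith [norm_nonneg x]
      rw [norm_div, div_le_one (norm_pos_iff.2 hden)]
      apply le_of_sq_le_sq _ (norm_nonneg _)
      have hx2 : ‖x‖^2 ≤ 1 := by
        have := norm_nonneg x
        nlinarith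
      rw [← Complex.normSq_eq_norm_sq, Complex.normSq_apply] at hx2 ⊢
      rw [← Complex.normSq_eq_norm_sq, Complex.normSq_apply]
      simp
      nlinarith [mul_nonneg (sub_nonneg.2 hx2) (show (0:ℝ) ≤ 1 - a^2 by nlinarith)]
    rw [← hval, ← hval]
    exact hχψ w hwn
  -- rotate
  let u : ℕ → ℂ := fun k => (starRingEnd ℂ) (ψ (f k)) / ‖ψ (f k)‖
  have hune : ∀ k, ‖u k‖ ≤ 1 := by
    intro k
    simp only [u, norm_div, RCLike.norm_conj, Complex.norm_real, norm_norm]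
    exact div_self_le_one _
  have hψu : ∀ k, ψ (u k • f k) = ‖ψ (f k)‖ := by
    intro k
    rw [map_smul, smul_eq_mul]
    simp only [u]
    by_cases h : ψ (f k) = 0
    · simp [h]
    · have h2 : (‖ψ (f k)‖ : ℂ) ≠ 0 := by
        exact_mod_cast (norm_ne_zero_iff.2 h)
      rw [div_mul_eq_mul_div, div_eq_iff h2, mul_comm, Complex.mul_conj, Complex.normSq_eq_norm_sq]
      push_cast
      ring
  have hχu : Tendsto (fun k => χ (u k • f k)) atTop (𝓝 0) := by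
    apply squeeze_zero_norm (a := fun k => ‖χ (f k)‖)
    · intro k
      rw [map_smul, smul_eq_mul, norm_mul]
      calc _ ≤ 1 * ‖χ (f k)‖ := mul_le_mul_of_nonneg_right (hune k) (norm_nonneg _)
        _ = _ := one_mul _
    · simpa using h0.norm
  have hψu' : Tendsto (fun k => ψ (u k • f k)) atTop (𝓝 1) := by
    simp only [hψu]
    have := (Complex.continuous_ofReal.tendsto 1).comp h1
    simpa [Function.comp_def] using this
  have hnorm : ∀ k, ‖u k • f k‖ ≤ 1 := by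
    intro k
    rw [norm_smul]
    calc _ ≤ 1 * 1 := mul_le_mul (hune k) (hf k) (norm_nonneg _) zero_le_one
      _ = 1 := one_mul 1
  have hlim : Tendsto (fun k => ‖(χ (u k • f k) - a) / (1 - a * χ (u k • f k)) -
      (ψ (u k • f k) - a) / (1 - a * ψ (u k • f k))‖) atTop
      (𝓝 ‖((0:ℂ) - a) / (1 - a * 0) - (1 - a) / (1 - a * 1)‖) := by
    have ha1' : (1 - (a:ℂ) * 1) ≠ 0 := by
      rw [mul_one, ← Complex.ofReal_one, ← Complex.ofReal_sub]
      exact_mod_cast (sub_pos.2 ha1).ne'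
    apply Tendsto.norm
    apply Tendsto.sub
    · apply Tendsto.div (hχu.sub_const _) ((hχu.const_mul _).const_sub _)
      simp
    · exact Tendsto.div (hψu'.sub_const _) ((hψu'.const_mul _).const_sub _) ha1'
  have hle := le_of_tendsto hlim (Eventually.of_forall (fun k => key _ (hnorm k)))
  have hcomp : ((0:ℂ) - a) / (1 - a * 0) - (1 - a) / (1 - a * 1) = -((1 + a : ℝ) : ℂ) := by
    have ha1' : (1 - (a:ℂ)) ≠ 0 := by
      rw [← Complex.ofReal_one, ← Complex.ofReal_sub]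
      exact_mod_cast (sub_pos.2 ha1).ne'
    rw [mul_one, div_self ha1']
    push_cast
    ring
  rw [hcomp, norm_neg, Complex.norm_real, Real.norm_of_nonneg (by linarith)] at hle
  linarith

/-- If one character sits over a unimodular point, the other one sits over the same point. -/
theorem same_fiber {e : Metric.ball (0:ℂ) 1 → B →ₐ[ℂ] ℂ} (he : Evals e) {idX : B} (hid : ∀ z, e z idX = z)
    (χ ψ : B →ₐ[ℂ] ℂ) {c : ℝ}
    (hc : c < 2) (hχψ : ∀ f : B, ‖f‖ ≤ 1 → ‖χ f - ψ f‖ ≤ c) (h1 : ‖χ idX‖ = 1) : ψ idX = χ idX := by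
  by_contra hne
  have hidn : ‖idX‖ ≤ 1 := by
    apply he.norm_le _ _ zero_le_one
    intro z
    rw [hid]
    have := z.2
    rw [mem_ball_zero_iff] at this
    exact this.le
  set l := χ idX with hl
  set m := ψ idX with hm
  have hm1 : ‖m‖ ≤ 1 := (hom_norm_le ψ idX).trans hidn
  have hll : (starRingEnd ℂ) l * l = 1 := by
    rw [mul_comm, Complex.mul_conj, Complex.normSq_eq_norm_sq, h1]; simp
  set p : B := (1/2:ℂ) • (1 + (starRingEnd ℂ l) • idX) with hp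
  have hpφ : ∀ φ : B →ₐ[ℂ] ℂ, φ p = (1/2:ℂ) * (1 + starRingEnd ℂ l * φ idX) := by
    intro φ
    rw [hp, map_smul, map_add, map_one, map_smul, smul_eq_mul, smul_eq_mul]
  have hpn : ‖p‖ ≤ 1 := by
    apply he.norm_le _ _ zero_le_one
    intro z
    rw [hpφ, hid]
    have hz := z.2
    rw [mem_ball_zero_iff] at hz
    rw [norm_mul]
    have h3 : ‖(1/2:ℂ)‖ = 1/2 := by simp
    have h4 : ‖1 + starRingEnd ℂ l * (z:ℂ)‖ ≤ 2 := by
      refine (norm_add_le _ _).trans ?_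
      rw [norm_one, norm_mul, RCLike.norm_conj, h1, one_mul]
      linarith
    rw [h3]; linarith
  have hψp : ‖ψ p‖ < 1 := by
    rw [hpφ, ← hm]
    set w := starRingEnd ℂ l * m with hw
    have hwn : ‖w‖ ≤ 1 := by rw [hw, norm_mul, RCLike.norm_conj, h1, one_mul]; exact hm1
    have hw1 : w ≠ 1 := by
      intro h
      apply hne
      have : l * w = l := by rw [h, mul_one]
      rw [hw, ← mul_assoc, mul_comm l, hll, one_mul] at this
      exact this
    have hw2 : ‖w‖^2 ≤ 1 := by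
      have := norm_nonneg w
      nlinarith
    have hw3 : 0 < ‖w - 1‖ := norm_pos_iff.2 (sub_ne_zero.2 hw1)
    have h5 : ‖(1/2:ℂ) * (1 + w)‖ ^ 2 ≤ 1 - ‖w - 1‖^2/4 := by
      rw [norm_mul, mul_pow]
      have h3 : ‖(1/2:ℂ)‖ = 1/2 := by simp
      rw [h3]
      rw [← Complex.normSq_eq_norm_sq, Complex.normSq_apply] at hw2 ⊢
      rw [← Complex.normSq_eq_norm_sq, Complex.normSq_apply]
      simp
      nlinarith
    have h6 := norm_nonneg ((1/2:ℂ) * (1 + w))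
    nlinarith [mul_pos hw3 hw3]
  apply moebius_contra he ψ χ hc (fun f hf => by rw [norm_sub_rev]; exact hχψ f hf) (fun k => p ^ k)
  · intro k
    exact (norm_pow_le _ _).trans (pow_le_one₀ (norm_nonneg _) hpn)
  · simp only [map_pow]
    exact tendsto_pow_atTop_nhds_zero_of_norm_lt_one hψp
  · have : χ p = 1 := by
      rw [hpφ, ← hl, hll]; norm_num
    simp [this]

end abstract_algebra

end Pool.Agent.Work.MP_a7579f_an
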