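import Mathlib
import Pool.Agent.Work.MP_a7579f_an.Bumps
import Pool.Agent.Work.MP_a7579f_an.Chars

set_option autoImplicit false
set_option linter.unusedSectionVars false

namespace Pool.Agent.Work.MP_a7579f_an

open Filter Topology Metric

variable {B : Type*} [NormedCommRing B] [NormedAlgebra ℂ B] [CompleteSpace B] [NormOneClass B]

theorem hom_continuous (φ : B →ₐ[ℂ] ℂ) : Continuous φ :=
  AddMonoidHomClass.continuous_of_bound φ 1 (fun f => by rw [one_mul]; exact hom_norm_le φ f)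

theorem hom_exp (φ : B →ₐ[ℂ] ℂ) (f : B) : φ (NormedSpace.exp f) = Complex.exp (φ f) := by
  let _ : NormedAlgebra ℚ B := NormedAlgebra.restrictScalars ℚ ℂ B
  rw [NormedSpace.map_exp φ (hom_continuous φ) f, Complex.exp_eq_exp_ℂ]

theorem eq_of_evals {e : Metric.ball (0:ℂ) 1 → B →ₐ[ℂ] ℂ} (he : Evals e) {f g : B}
    (h : ∀ z, e z f = e z g) : f = g := by
  rw [← sub_eq_zero, ← norm_le_zero_iff]
  apply he.norm_le _ _ le_rfl
  intro z
  rw [map_sub, h z, sub_self, norm_zero]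

theorem hom_pair_near {e : Metric.ball (0:ℂ) 1 → B →ₐ[ℂ] ℂ} (he : Evals e) {idX : B} (hid : ∀ z, e z idX = z)
    (χ ψ : B →ₐ[ℂ] ℂ) {c : ℝ} (hχψ : ∀ f : B, ‖f‖ ≤ 1 → ‖χ f - ψ f‖ ≤ c)
    (hχ : χ idX = 1) (hψ : ψ idX = 1)
    (f : B) {C : ℝ} (hC : 0 ≤ C)
    (hf : ∀ᶠ z in 𝓝[closedBall (0:ℂ) 1] (1:ℂ), ∀ hz : z ∈ ball (0:ℂ) 1, ‖e ⟨z, hz⟩ f‖ ≤ C) :
    ‖χ f - ψ f‖ ≤ c * C := by
  have hc : 0 ≤ c := (norm_nonneg _).trans (hχψ 0 (by simp))
  have key : ∀ ε : ℝ, 0 < ε → ‖χ f - ψ f‖ ≤ c * (C + ε) := by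
    intro ε hε
    obtain ⟨g, hg, hg'⟩ := localize he hid f hC hf hε
    rw [← hg' χ hχ, ← hg' ψ hψ]
    have hpos : 0 < C + ε := by linarith
    have h1 := hχψ (((C + ε : ℝ) : ℂ)⁻¹ • g) (by
      rw [norm_smul, norm_inv, Complex.norm_real, Real.norm_of_nonneg hpos.le]
      rw [inv_mul_le_iff₀ hpos]
      simpa using hg)
    rw [map_smul, map_smul, ← smul_sub, norm_smul, norm_inv, Complex.norm_real,
      Real.norm_of_nonneg hpos.le, inv_mul_le_iff₀ hpos] at h1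
    linarith
  apply le_of_forall_pos_le_add
  intro ε hε
  have h2 := key (ε / (c + 1)) (by positivity)
  have h3 : c * (ε / (c + 1)) ≤ ε := by
    rw [mul_div_assoc', div_le_iff₀ (by positivity)]
    nlinarith
  nlinarith

/-- The data of the counterexample algebra, in abstract form. -/
structure Data (e : Metric.ball (0:ℂ) 1 → B →ₐ[ℂ] ℂ) (idX : B) (S : Subring (ℕ → ℂ))
    (u : (ℕ → ℂ) → ℝ → B) : Prop where
  he : Evals e
  hid : ∀ z, e z idX = z
  bdd : ∀ r ∈ S, ∃ C : ℝ, ∀ n, ‖r n‖ ≤ C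
  root : ∀ r ∈ S, ∃ s ∈ S, s * s = r
  const : ∀ (c : ℂ) (ε : ℝ), 0 < ε → ∃ c' : ℂ, ‖c - c'‖ < ε ∧ (fun _ : ℕ => c') ∈ S
  hu : ∀ r ∈ S, ∀ s : ℝ, 0 < s → ∀ z, e z (u r s) = UU r s z

variable {e : Metric.ball (0:ℂ) 1 → B →ₐ[ℂ] ℂ} {idX : B} {S : Subring (ℕ → ℂ)} {u : (ℕ → ℂ) → ℝ → B}

theorem one_mem_S : (fun _ : ℕ => (1:ℂ)) ∈ S := S.one_mem

theorem u_mul (D : Data e idX S u) {φ : B →ₐ[ℂ] ℂ} (hφ : φ idX = 1) {r r' : ℕ → ℂ} (hr : r ∈ S)
    (hr' : r' ∈ S) {s s' : ℝ} (hs : 0 < s) (hs' : 0 < s') :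
    φ (u r s) * φ (u r' s') = φ (u (r * r') (s + s')) := by
  obtain ⟨C, hC⟩ := D.bdd r hr
  obtain ⟨C', hC'⟩ := D.bdd r' hr'
  rw [← sub_eq_zero, ← map_mul, ← map_sub]
  apply hom_eq_zero_near D.he D.hid _ (fun z => UU r s z * UU r' s' z - UU (fun n => r n * r' n) (s + s') z)
    _ _ φ hφ
  · intro z
    rw [map_sub, map_mul, D.hu r hr s hs, D.hu r' hr' s' hs', D.hu _ (S.mul_mem hr hr') _ (add_pos hs hs')]
    rfl
  · exact UU_mul hC hC' hs hs'

theorem u_norm (D : Data e idX S u) {r : ℕ → ℂ} (hr : r ∈ S) {C : ℝ} (hC : ∀ n, ‖r n‖ ≤ C) {s : ℝ}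
    (hs : 0 < s) {ε : ℝ} (hε : 0 < ε) :
    ∀ᶠ z in 𝓝[closedBall (0:ℂ) 1] (1:ℂ), ∀ hz : z ∈ ball (0:ℂ) 1, ‖e ⟨z, hz⟩ (u r s)‖ ≤ C + ε := by
  filter_upwards [UU_limsup hC hs hε] with z hz hz'
  rw [D.hu r hr s hs]
  exact hz

theorem u_sub_const (D : Data e idX S u) {r : ℕ → ℂ} (hr : r ∈ S) {c : ℂ} (hc : (fun _ : ℕ => c) ∈ S) {s : ℝ}
    (hs : 0 < s) : u (r - fun _ => c) s = u r s - c • u (fun _ => 1) s := by
  obtain ⟨C, hC⟩ := D.bdd r hr
  apply eq_of_evals D.he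
  intro z
  rw [map_sub, map_smul, D.hu _ (S.sub_mem hr hc) s hs, D.hu r hr s hs, D.hu _ one_mem_S s hs]
  have h := UU_linear (b := fun _ => 1) (D := 1) hC (by simp) (-c) hs (ball_subset_closedBall z.2)
  rw [smul_eq_mul]
  have h2 : (r - fun _ => c) = fun n => r n + (-c) * (fun _ => (1:ℂ)) n := by
    funext n; simp [sub_eq_add_neg]
  rw [h2, h]
  ring

/-- the exponential trick, part 1 -/
theorem exp_near (D : Data e idX S u) {s : ℝ} (hs : 0 < s) (N : ℝ) {ε : ℝ} (hε : 0 < ε) :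
    ∀ᶠ z in 𝓝[closedBall (0:ℂ) 1] (1:ℂ), ∀ hz : z ∈ ball (0:ℂ) 1,
      ‖e ⟨z, hz⟩ (NormedSpace.exp (((N : ℂ) * Complex.I) • u (fun _ => 1) s))‖ ≤ 1 + ε := by
  have hlog : 0 < Real.log (1 + ε) := Real.log_pos (by linarith)
  filter_upwards [UU_one_im hs (show 0 < Real.log (1 + ε) / (|N| + 1) by positivity)] with z hz hz'
  rw [hom_exp, map_smul, smul_eq_mul, D.hu _ one_mem_S s hs, Complex.norm_exp]
  rw [← Real.exp_log (show 0 < 1 + ε by linarith)]
  apply Real.exp_le_exp.2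
  have h1 : ((N : ℂ) * Complex.I * UU (fun _ => 1) s z).re = - N * (UU (fun _ => 1) s z).im := by
    simp
  rw [h1]
  calc - N * (UU (fun _ => 1) s z).im ≤ |- N * (UU (fun _ => 1) s z).im| := le_abs_self _
    _ = |N| * |(UU (fun _ => 1) s z).im| := by rw [abs_mul, abs_neg]
    _ ≤ |N| * (Real.log (1 + ε) / (|N| + 1)) := mul_le_mul_of_nonneg_left hz (abs_nonneg _)
    _ ≤ Real.log (1 + ε) := by
      rw [mul_div_assoc', div_le_iff₀ (by positivity)]
      nlinarith [abs_nonneg N]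

theorem u_one_real (D : Data e idX S u) {φ : B →ₐ[ℂ] ℂ} (hφ : φ idX = 1) {s : ℝ} (hs : 0 < s) :
    (φ (u (fun _ => 1) s)).im = 0 := by
  set t := φ (u (fun _ => 1) s) with ht
  have key : ∀ N : ℝ, -N * t.im ≤ Real.log 2 := by
    intro N
    have h1 := hom_le_near D.he D.hid _ (by norm_num) (exp_near D hs N one_pos) φ hφ
    rw [hom_exp, map_smul, smul_eq_mul, ← ht, Complex.norm_exp] at h1
    have h2 : ((N : ℂ) * Complex.I * t).re = - N * t.im := by simp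
    rw [h2] at h1
    have h3 := Real.log_le_log (Real.exp_pos _) h1
    rw [Real.log_exp] at h3
    norm_num at h3 ⊢
    linarith
  by_contra hne
  have h4 := key (-(Real.log 2 + 1) / t.im)
  have h5 : -(-(Real.log 2 + 1) / t.im) * t.im = Real.log 2 + 1 := by
    field_simp
  rw [h5] at h4
  linarith

theorem u_one_eq (D : Data e idX S u) (χ ψ : B →ₐ[ℂ] ℂ) {c : ℝ} (hc : c < 2)
    (hχψ : ∀ f : B, ‖f‖ ≤ 1 → ‖χ f - ψ f‖ ≤ c)
    (hχ : χ idX = 1) (hψ : ψ idX = 1) {s : ℝ} (hs : 0 < s) :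
    χ (u (fun _ => 1) s) = ψ (u (fun _ => 1) s) := by
  have hc0 : 0 ≤ c := (norm_nonneg _).trans (hχψ 0 (by simp))
  set t := χ (u (fun _ => 1) s) with ht
  set t' := ψ (u (fun _ => 1) s) with ht'
  have him := u_one_real D hχ hs
  have him' := u_one_real D hψ hs
  rw [← ht] at him
  rw [← ht'] at him'
  by_contra hne
  have hre : t.re - t'.re ≠ 0 := by
    intro h
    apply hne
    exact Complex.ext (sub_eq_zero.1 h) (by rw [him, him'])
  set N : ℝ := Real.pi / (t.re - t'.re) with hN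
  have key : ∀ ε : ℝ, 0 < ε → 2 ≤ c * (1 + ε) := by
    intro ε hε
    have h1 := hom_pair_near D.he D.hid χ ψ hχψ hχ hψ _ (by linarith) (exp_near D hs N hε)
    rw [hom_exp, hom_exp, map_smul, map_smul, smul_eq_mul, smul_eq_mul, ← ht, ← ht'] at h1
    have h2 : t = (t.re : ℂ) := Complex.ext (by simp) (by simp [him])
    have h3 : t' = (t'.re : ℂ) := Complex.ext (by simp) (by simp [him'])
    have h4 : Complex.exp ((N:ℂ) * Complex.I * t) = - Complex.exp ((N:ℂ) * Complex.I * t') := by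
      have h5 : (N:ℂ) * Complex.I * t = Real.pi * Complex.I + (N:ℂ) * Complex.I * t' := by
        have h6 : (N:ℂ) * (t - t') = Real.pi := by
          rw [h2, h3, hN, ← Complex.ofReal_sub, ← Complex.ofReal_mul, div_mul_cancel₀ _ hre]
        linear_combination Complex.I * h6
      rw [h5, Complex.exp_add, Complex.exp_pi_mul_I]
      ring
    rw [h4] at h1
    have h7 : ‖Complex.exp ((N:ℂ) * Complex.I * t')‖ = 1 := by
      rw [Complex.norm_exp]
      have : ((N : ℂ) * Complex.I * t').re = 0 := by simp [him']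
      rw [this, Real.exp_zero]
    have h8 : -Complex.exp ((N:ℂ) * Complex.I * t') - Complex.exp ((N:ℂ) * Complex.I * t') =
        -2 * Complex.exp ((N:ℂ) * Complex.I * t') := by ring
    rw [h8, norm_mul, h7, norm_neg] at h1
    simpa using h1
  have h9 := key ((2 - c) / (2 * (c + 1))) (by apply div_pos <;> linarith)
  have h10 : c * ((2 - c) / (2 * (c + 1))) < 2 - c := by
    rw [mul_div_assoc', div_lt_iff₀ (by linarith)]
    nlinarith
  nlinarith

/-- iterated roots -/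
theorem exists_iter_root (D : Data e idX S u) : ∀ (k : ℕ) (r : ℕ → ℂ), r ∈ S → ∀ s : ℝ, 0 < s →
    ∃ q ∈ S, (∀ n, q n ^ (2^k) = r n) ∧ ∀ φ : B →ₐ[ℂ] ℂ, φ idX = 1 →
      φ (u q (s / 2^k)) ^ (2^k) = φ (u r s)
  | 0 => fun r hr s hs => ⟨r, hr, by simp, by simp⟩
  | k+1 => fun r hr s hs => by
    obtain ⟨p, hp, hpr⟩ := D.root r hr
    obtain ⟨q, hq, hq1, hq2⟩ := exists_iter_root D k p hp (s/2) (by positivity)
    refine ⟨q, hq, ?_, ?_⟩
    · intro n
      rw [pow_succ, pow_mul, hq1, sq, ← hpr]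
      rfl
    · intro φ hφ
      have h1 : s / 2^(k+1) = s / 2 / 2^k := by rw [pow_succ]; field_simp
      rw [h1, pow_succ 2 k, pow_mul, hq2 φ hφ, sq, u_mul D hφ hp hp (by positivity) (by positivity), hpr]
      congr 2
      ring

theorem le_root {x y : ℝ} (hx : 0 ≤ x) (k : ℕ) (h : x ^ (2^k) ≤ y) :
    x ≤ y ^ (((2^k : ℕ) : ℝ)⁻¹) := by
  have h1 := Real.rpow_le_rpow (pow_nonneg hx _) h (show 0 ≤ (((2^k : ℕ) : ℝ)⁻¹) by positivity)
  rwa [Real.pow_rpow_inv_natCast hx (by positivity)] at h1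

theorem root_le {x y : ℝ} (hx : 0 ≤ x) (hy : 0 ≤ y) (k : ℕ) (h : y ≤ x ^ (2^k)) :
    y ^ (((2^k : ℕ) : ℝ)⁻¹) ≤ x := by
  have h1 := Real.rpow_le_rpow hy h (show 0 ≤ (((2^k : ℕ) : ℝ)⁻¹) by positivity)
  rwa [Real.pow_rpow_inv_natCast hx (by positivity)] at h1

theorem tendsto_root {y : ℝ} (hy : 0 < y) :
    Tendsto (fun k : ℕ => y ^ (((2^k : ℕ) : ℝ)⁻¹)) atTop (𝓝 1) := by
  have h1 : Tendsto (fun k : ℕ => (((2^k : ℕ) : ℝ)⁻¹)) atTop (𝓝 0) := by
    apply tendsto_inv_atTop_zero.comp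
    apply tendsto_natCast_atTop_atTop.comp
    exact tendsto_pow_atTop_atTop_of_one_lt (by norm_num)
  have h2 := (Real.continuousAt_const_rpow hy.ne' (b := 0)).tendsto.comp h1
  simpa [Function.comp_def] using h2

/-- Two characters over `1` in the same part agree on all generators. -/
theorem fiber_eq (D : Data e idX S u) (χ ψ : B →ₐ[ℂ] ℂ) {c : ℝ} (hc : c < 2)
    (hχψ : ∀ f : B, ‖f‖ ≤ 1 → ‖χ f - ψ f‖ ≤ c)
    (hχ : χ idX = 1) (hψ : ψ idX = 1) {r : ℕ → ℂ} (hr : r ∈ S) {s : ℝ} (hs : 0 < s) :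
    χ (u r s) = ψ (u r s) := by
  by_contra hne
  set t := χ (u (fun _ => 1) s) with ht
  have ht' : ψ (u (fun _ => 1) s) = t := (u_one_eq D χ ψ hc hχψ hχ hψ hs).symm
  by_cases h0 : t = 0
  · have gen : ∀ φ : B →ₐ[ℂ] ℂ, φ idX = 1 → φ (u (fun _ => 1) s) = 0 → φ (u r s) = 0 := by
      intro φ hφ h1
      have h2 := u_mul D hφ hr hr hs hs
      have h3 := u_mul D hφ one_mem_S (S.mul_mem hr hr) hs hs
      rw [h1, zero_mul] at h3
      have h4 : ((fun _ : ℕ => (1:ℂ)) * (r * r)) = r * r := by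
        funext n; simp
      rw [h4] at h3
      rw [← h3] at h2
      exact mul_self_eq_zero.1 h2
    exact hne (by rw [gen χ hχ h0, gen ψ hψ (by rw [ht', h0])])
  · obtain ⟨C, hC⟩ := D.bdd r hr
    set x := χ (u r s) / t with hx
    have hx' : χ (u r s) = x * t := by rw [hx, div_mul_cancel₀ _ h0]
    set δ := ‖ψ (u r s) - χ (u r s)‖ with hδ
    have hδ0 : 0 < δ := norm_pos_iff.2 (sub_ne_zero.2 (Ne.symm hne))
    have htpos : 0 < ‖t‖ := norm_pos_iff.2 h0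
    -- tolerances
    let η : ℕ → ℝ := fun k => (1/((k:ℝ)+2))^(2^k) / (‖t‖ + 1)
    have hη0 : ∀ k, 0 < η k := fun k => by simp only [η]; positivity
    have hηt : ∀ k, ‖t‖ * η k ≤ (1/((k:ℝ)+2))^(2^k) := by
      intro k
      simp only [η]
      rw [mul_div_assoc', div_le_iff₀ (by positivity)]
      have : (0:ℝ) ≤ (1/((k:ℝ)+2))^(2^k) := by positivity
      nlinarith
    have hsmall : ∀ k : ℕ, (1/((k:ℝ)+2))^(2^k) ≤ 1/((k:ℝ)+2) := by
      intro k
      have h1 : (1/((k:ℝ)+2)) ≤ 1 := by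
        rw [div_le_one (by positivity)]; linarith [Nat.cast_nonneg (α := ℝ) k]
      calc (1/((k:ℝ)+2))^(2^k) ≤ (1/((k:ℝ)+2))^1 :=
            pow_le_pow_of_le_one (by positivity) h1 (Nat.one_le_two_pow)
        _ = _ := pow_one _
    have hη1 : ∀ k, η k ≤ 1 := by
      intro k
      simp only [η]
      rw [div_le_one (by positivity)]
      have h1 : 1/((k:ℝ)+2) ≤ 1 := by
        rw [div_le_one (by positivity)]; linarith [Nat.cast_nonneg (α := ℝ) k]
      linarith [hsmall k]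
    choose cc hcc1 hcc2 using fun k : ℕ => D.const x (η k) (hη0 k)
    have hrc : ∀ k, (r - fun _ => cc k) ∈ S := fun k => S.sub_mem hr (hcc2 k)
    choose q hqS hq1 hq2 using fun k : ℕ => exists_iter_root D k (r - fun _ => cc k) (hrc k) s hs
    set M : ℝ := |C| + ‖x‖ + 1 with hM
    have hM1 : 1 ≤ M := by
      have := abs_nonneg C
      have := norm_nonneg x
      linarith
    have hrM : ∀ k n, ‖(r - (fun _ => cc k) : ℕ → ℂ) n‖ ≤ M := by
      intro k n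
      rw [Pi.sub_apply]
      refine (norm_sub_le _ _).trans ?_
      have h1 : ‖cc k‖ ≤ ‖x‖ + 1 := by
        have h2 := norm_sub_norm_le (cc k) x
        rw [norm_sub_rev] at h2
        linarith [(hcc1 k).le, hη1 k]
      have h3 := (hC n).trans (le_abs_self C)
      linarith
    have hqM : ∀ k n, ‖q k n‖ ≤ M ^ (((2^k : ℕ) : ℝ)⁻¹) := by
      intro k n
      apply le_root (norm_nonneg _)
      rw [← norm_pow, hq1]
      exact hrM k n
    have hinv : ∀ k : ℕ, 0 < 1/((k:ℝ)+1) := fun k => by positivity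
    have hs' : ∀ k : ℕ, 0 < s / 2^k := fun k => by positivity
    have hC0 : ∀ k : ℕ, 0 ≤ M ^ (((2^k : ℕ) : ℝ)⁻¹) + 1/((k:ℝ)+1) := fun k => by positivity
    choose g hg1 hg2 using fun k : ℕ => localize D.he D.hid (u (q k) (s / 2^k)) (hC0 k)
      (u_norm D (hqS k) (hqM k) (hs' k) (hinv k)) (hinv k)
    let E : ℕ → ℝ := fun k => M ^ (((2^k : ℕ) : ℝ)⁻¹) + 1/((k:ℝ)+1) + 1/((k:ℝ)+1)
    have hE0 : ∀ k, 0 < E k := fun k => by simp only [E]; positivity
    have hE1 : Tendsto E atTop (𝓝 1) := by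
      have h1 := tendsto_root (show 0 < M by linarith)
      have h2 := tendsto_one_div_add_atTop_nhds_zero_nat (𝕜 := ℝ)
      have := (h1.add h2).add h2
      simpa [E] using this
    have hχq : ∀ k : ℕ, ‖χ (u (q k) (s / 2^k))‖ ≤ 1/((k:ℝ)+2) := by
      intro k
      have h1 := hq2 k χ hχ
      rw [u_sub_const D hr (hcc2 k) hs, map_sub, map_smul, smul_eq_mul, ← ht, hx', ← sub_mul] at h1
      have h2 : ‖χ (u (q k) (s / 2^k))‖ ^ (2^k) ≤ (1/((k:ℝ)+2))^(2^k) := by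
        rw [← norm_pow, h1, norm_mul]
        calc _ ≤ η k * ‖t‖ := mul_le_mul_of_nonneg_right (hcc1 k).le (norm_nonneg _)
          _ = ‖t‖ * η k := mul_comm _ _
          _ ≤ _ := hηt k
      exact le_of_pow_le_pow_left₀ (by positivity) (by positivity) h2
    have hψq : ∀ k : ℕ, δ - 1/((k:ℝ)+2) ≤ ‖ψ (u (q k) (s / 2^k))‖ ^ (2^k) := by
      intro k
      have h1 := hq2 k ψ hψ
      rw [u_sub_const D hr (hcc2 k) hs, map_sub, map_smul, smul_eq_mul, ht'] at h1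
      rw [← norm_pow, h1]
      have h2 : ψ (u r s) - cc k * t = (ψ (u r s) - χ (u r s)) + (x - cc k) * t := by
        rw [hx']; ring
      rw [h2]
      have h3 := norm_sub_norm_le (ψ (u r s) - χ (u r s)) (-((x - cc k) * t))
      rw [sub_neg_eq_add, norm_neg] at h3
      have h4 : ‖(x - cc k) * t‖ ≤ 1/((k:ℝ)+2) := by
        rw [norm_mul]
        calc _ ≤ η k * ‖t‖ := mul_le_mul_of_nonneg_right (hcc1 k).le (norm_nonneg _)
          _ = ‖t‖ * η k := mul_comm _ _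
          _ ≤ _ := (hηt k).trans (hsmall k)
      linarith
    have hnorm : ∀ k, ‖((E k : ℂ))⁻¹ • g k‖ ≤ 1 := by
      intro k
      rw [norm_smul, norm_inv, Complex.norm_real, Real.norm_of_nonneg (hE0 k).le, inv_mul_le_iff₀ (hE0 k), mul_one]
      exact hg1 k
    have hlim2 : Tendsto (fun k : ℕ => 1/((k:ℝ)+2)) atTop (𝓝 0) := by
      have h1 := (tendsto_add_atTop_iff_nat 1).2 (tendsto_one_div_add_atTop_nhds_zero_nat (𝕜 := ℝ))
      refine h1.congr (fun k => ?_)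
      push_cast
      ring
    apply moebius_contra D.he χ ψ hc hχψ (fun k => ((E k : ℂ))⁻¹ • g k) hnorm
    · apply squeeze_zero_norm (a := fun k => (E k)⁻¹ * (1/((k:ℝ)+2)))
      · intro k
        rw [map_smul, norm_smul, norm_inv, Complex.norm_real, Real.norm_of_nonneg (hE0 k).le, hg2 k χ hχ]
        exact mul_le_mul_of_nonneg_left (hχq k) (by have := hE0 k; positivity)
      · have := (hE1.inv₀ one_ne_zero).mul hlim2
        simpa using this
    · have hlow : Tendsto (fun k : ℕ => (E k)⁻¹ * (δ/2) ^ (((2^k : ℕ) : ℝ)⁻¹)) atTop (𝓝 1) := by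
        have := (hE1.inv₀ one_ne_zero).mul (tendsto_root (half_pos hδ0))
        simpa using this
      apply tendsto_of_tendsto_of_tendsto_of_le_of_le' hlow tendsto_const_nhds
      · have h1 : ∀ᶠ k : ℕ in atTop, 1/((k:ℝ)+2) < δ/2 := hlim2.eventually (gt_mem_nhds (half_pos hδ0))
        filter_upwards [h1] with k hk
        rw [map_smul, norm_smul, norm_inv, Complex.norm_real, Real.norm_of_nonneg (hE0 k).le, hg2 k ψ hψ]
        apply mul_le_mul_of_nonneg_left _ (by have := hE0 k; positivity)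
        apply root_le (norm_nonneg _) (half_pos hδ0).le
        linarith [hψq k]
      · exact Eventually.of_forall (fun k => (hom_norm_le ψ _).trans (hnorm k))

end Pool.Agent.Work.MP_a7579f_an
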