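import Mathlib
import Pool.Agent.Work.MP_a7579f_an.Fiber

set_option autoImplicit false
set_option linter.unusedSectionVars false

namespace Pool.Agent.Work.MP_a7579f_an

open Filter Topology Metric

variable {B : Type*} [NormedCommRing B] [NormedAlgebra ℂ B] [CompleteSpace B] [NormOneClass B]
variable {e : Metric.ball (0:ℂ) 1 → B →ₐ[ℂ] ℂ} {idX : B} {S : Subring (ℕ → ℂ)} {u : (ℕ → ℂ) → ℝ → B}

/-- `B` contains the disc algebra. -/
def ContainsDisc (e : Metric.ball (0:ℂ) 1 → B →ₐ[ℂ] ℂ) : Prop :=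
  ∀ F : ℂ → ℂ, ContinuousOn F (Metric.closedBall 0 1) → DifferentiableOn ℂ F (Metric.ball 0 1) →
    ∃ f : B, ∀ z, e z f = F z

theorem norm_idX_le (he : Evals e) (hid : ∀ z, e z idX = z) : ‖idX‖ ≤ 1 := by
  apply he.norm_le _ _ zero_le_one
  intro z
  rw [hid]
  have := z.2
  rw [mem_ball_zero_iff] at this
  exact this.le

/-- Characters are evaluations on the disc algebra. -/
theorem hom_disc (he : Evals e) (hid : ∀ z, e z idX = z) (hA : ContainsDisc e) (φ : B →ₐ[ℂ] ℂ)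
    (f : B) (F : ℂ → ℂ) (hFc : ContinuousOn F (closedBall 0 1)) (hFd : DifferentiableOn ℂ F (ball 0 1))
    (hf : ∀ z, e z f = F z) : φ f = F (φ idX) := by
  set l := φ idX with hl
  have hl1 : ‖l‖ ≤ 1 := (hom_norm_le φ idX).trans (norm_idX_le he hid)
  have hlm : l ∈ closedBall (0:ℂ) 1 := by simpa using hl1
  rw [← sub_eq_zero, ← norm_le_zero_iff]
  apply le_of_forall_pos_le_add
  intro ε hε
  rw [zero_add]
  -- uniform continuity
  have huc := (isCompact_closedBall (0:ℂ) 1).uniformContinuousOn_of_continuous hFc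
  rw [Metric.uniformContinuousOn_iff] at huc
  obtain ⟨δ, hδ, huc⟩ := huc (ε/2) (half_pos hε)
  set r : ℝ := 1 - min (δ/2) (1/2) with hr
  have hm0 : 0 < min (δ/2) (1/2) := lt_min (half_pos hδ) (by norm_num)
  have hm1 : min (δ/2) (1/2) ≤ 1/2 := min_le_right _ _
  have hm2 : min (δ/2) (1/2) ≤ δ/2 := min_le_left _ _
  have hr0 : 0 < r := by linarith
  have hr1 : r < 1 := by linarith
  have hrz : ∀ z ∈ closedBall (0:ℂ) 1, (r:ℂ) * z ∈ ball (0:ℂ) 1 := by
    intro z hz
    rw [mem_closedBall_zero_iff] at hz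
    rw [mem_ball_zero_iff, norm_mul, Complex.norm_real, Real.norm_of_nonneg hr0.le]
    nlinarith
  have hclose : ∀ z ∈ closedBall (0:ℂ) 1, ‖F (r * z) - F z‖ ≤ ε/2 := by
    intro z hz
    rw [← dist_eq_norm]
    apply (huc _ (ball_subset_closedBall (hrz z hz)) z hz _).le
    rw [dist_eq_norm, show (r:ℂ) * z - z = ((r - 1 : ℝ) : ℂ) * z by push_cast; ring, norm_mul,
      Complex.norm_real, Real.norm_eq_abs, abs_sub_comm, abs_of_pos (by linarith)]
    rw [mem_closedBall_zero_iff] at hz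
    nlinarith [norm_nonneg z]
  -- dilated function
  have hFr : DifferentiableOn ℂ (fun z => F (r * z)) (ball (0:ℂ) (1/r)) := by
    apply hFd.comp (by fun_prop)
    intro z hz
    rw [mem_ball_zero_iff] at hz ⊢
    rw [norm_mul, Complex.norm_real, Real.norm_of_nonneg hr0.le]
    rw [lt_div_iff₀ hr0] at hz
    linarith
  have hsub : closedBall (0:ℂ) 1 ⊆ ball (0:ℂ) (1/r) := by
    intro z hz
    rw [mem_closedBall_zero_iff] at hz
    rw [mem_ball_zero_iff]
    exact hz.trans_lt ((one_lt_div hr0).2 hr1)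
  have hG : DifferentiableOn ℂ (dslope (fun z => F (r * z)) l) (ball (0:ℂ) (1/r)) :=
    (Complex.differentiableOn_dslope (isOpen_ball.mem_nhds (hsub hlm))).2 hFr
  obtain ⟨fr, hfr⟩ := hA (fun z => F (r * z)) (hFr.continuousOn.mono hsub)
    (hFr.mono (ball_subset_closedBall.trans hsub))
  obtain ⟨gr, hgr⟩ := hA (dslope (fun z => F (r * z)) l) (hG.continuousOn.mono hsub)
    (hG.mono (ball_subset_closedBall.trans hsub))
  have hfact : fr = F (r * l) • (1 : B) + (idX - l • (1:B)) * gr := by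
    apply eq_of_evals he
    intro z
    rw [map_add, map_mul, map_sub, map_smul, map_smul, map_one, hfr, hgr, hid, smul_eq_mul, smul_eq_mul,
      mul_one, mul_one]
    have := sub_smul_dslope (fun z => F (r * z)) l (z:ℂ)
    rw [smul_eq_mul] at this
    rw [this]
    ring
  have hφfr : φ fr = F (r * l) := by
    rw [hfact, map_add, map_mul, map_sub, map_smul, map_smul, map_one, ← hl, smul_eq_mul, smul_eq_mul,
      mul_one, mul_one, sub_self, zero_mul, add_zero]
  have hnorm : ‖f - fr‖ ≤ ε/2 := by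
    apply he.norm_le _ _ (half_pos hε).le
    intro z
    rw [map_sub, hf, hfr, norm_sub_rev]
    exact hclose z (ball_subset_closedBall z.2)
  have h1 : φ f - F l = φ (f - fr) + (F (r * l) - F l) := by
    rw [map_sub, hφfr]; ring
  rw [h1]
  have h2 := norm_add_le (φ (f - fr)) (F (r * l) - F l)
  have h3 := (hom_norm_le φ (f - fr)).trans hnorm
  have h4 := hclose l hlm
  linarith

/-- Away from `1`, the values on the bump sums are determined. -/
theorem hom_u_away (D : Data e idX S u) (hA : ContainsDisc e) (φ : B →ₐ[ℂ] ℂ) {r : ℕ → ℂ} (hr : r ∈ S)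
    {s : ℝ} (hs : 0 < s) : (1 - φ idX) * φ (u r s) = GG r s (φ idX) := by
  obtain ⟨C, hC⟩ := D.bdd r hr
  have h1 := hom_disc D.he D.hid hA φ ((1 - idX) * u r s) (GG r s) (GG_continuousOn hC hs)
    (GG_differentiableOn hC hs) (by
      intro z
      rw [map_mul, map_sub, map_one, D.hid, D.hu r hr s hs, GG_eq])
  rw [map_mul, map_sub, map_one] at h1
  exact h1

theorem hom_u_eq_of_ne (D : Data e idX S u) (hA : ContainsDisc e) (φ ψ : B →ₐ[ℂ] ℂ) (h : φ idX = ψ idX)
    (h1 : φ idX ≠ 1) {r : ℕ → ℂ} (hr : r ∈ S) {s : ℝ} (hs : 0 < s) : φ (u r s) = ψ (u r s) := by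
  have h2 := hom_u_away D hA φ hr hs
  have h3 := hom_u_away D hA ψ hr hs
  rw [← h, ← h2] at h3
  have h4 : (1 - φ idX) ≠ 0 := sub_ne_zero.2 (Ne.symm h1)
  exact (mul_left_cancel₀ h4 h3).symm

/-- The generators of the counterexample algebra. -/
def gens (e : Metric.ball (0:ℂ) 1 → B →ₐ[ℂ] ℂ) (S : Subring (ℕ → ℂ)) (u : (ℕ → ℂ) → ℝ → B) : Set B :=
  {f | ∃ F : ℂ → ℂ, ContinuousOn F (Metric.closedBall 0 1) ∧ DifferentiableOn ℂ F (Metric.ball 0 1) ∧
    ∀ z, e z f = F z} ∪ {f | ∃ r ∈ S, ∃ s : ℝ, 0 < s ∧ f = u r s}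

theorem hom_eq_of_gens (hd : ∀ x : B, x ∈ closure (Algebra.adjoin ℂ (gens e S u) : Set B))
    (φ ψ : B →ₐ[ℂ] ℂ) (h : ∀ f ∈ gens e S u, φ f = ψ f) : φ = ψ := by
  have h1 : Set.EqOn φ ψ (Algebra.adjoin ℂ (gens e S u) : Set B) := by
    intro x hx
    have : Algebra.adjoin ℂ (gens e S u) ≤ AlgHom.equalizer φ ψ := by
      rw [Algebra.adjoin_le_iff]
      intro f hf
      exact h f hf
    exact this hx
  have h2 := h1.closure (hom_continuous φ) (hom_continuous ψ)
  apply AlgHom.ext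
  intro x
  exact h2 (hd x)

/-- All parts outside the disc are trivial. -/
theorem part_main (D : Data e idX S u) (hA : ContainsDisc e)
    (hd : ∀ x : B, x ∈ closure (Algebra.adjoin ℂ (gens e S u) : Set B))
    (χ ψ : B →ₐ[ℂ] ℂ) {c : ℝ} (hc : c < 2)
    (hχψ : ∀ f : B, ‖f‖ ≤ 1 → ‖χ f - ψ f‖ ≤ c) (hne : χ ≠ ψ) : ∃ z, χ = e z := by
  have hl1 : ‖χ idX‖ ≤ 1 := (hom_norm_le χ idX).trans (norm_idX_le D.he D.hid)
  rcases hl1.lt_or_eq with hl | hl
  · refine ⟨⟨χ idX, by simpa using hl⟩, ?_⟩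
    apply hom_eq_of_gens hd
    rintro f (⟨F, hFc, hFd, hf⟩ | ⟨r, hr, s, hs, rfl⟩)
    · rw [hom_disc D.he D.hid hA χ f F hFc hFd hf, hf]
    · apply hom_u_eq_of_ne D hA _ _ _ _ hr hs
      · rw [D.hid]
      · intro h
        rw [h, norm_one] at hl
        exact lt_irrefl _ hl
  · exfalso
    apply hne
    have hsame := same_fiber D.he D.hid χ ψ hc hχψ hl
    apply hom_eq_of_gens hd
    rintro f (⟨F, hFc, hFd, hf⟩ | ⟨r, hr, s, hs, rfl⟩)
    · rw [hom_disc D.he D.hid hA χ f F hFc hFd hf, hom_disc D.he D.hid hA ψ f F hFc hFd hf, hsame]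
    · by_cases h1 : χ idX = 1
      · exact fiber_eq D χ ψ hc hχψ h1 (hsame.trans h1) hr hs
      · exact hom_u_eq_of_ne D hA _ _ hsame.symm h1 hr hs

/-- Sampling along the points `zn`. -/
theorem sample_adjoin (D : Data e idX S u) {h : B} (hh : h ∈ Algebra.adjoin ℂ (gens e S u)) :
    ∃ F ∈ Algebra.adjoin ℂ (S : Set (ℕ → ℂ)),
      Tendsto (fun n => e ⟨zn n, zn_mem n⟩ h - F n) atTop (𝓝 0) := by
  -- bounded sequences
  have hbd : ∀ F ∈ Algebra.adjoin ℂ (S : Set (ℕ → ℂ)), ∃ C : ℝ, ∀ n, ‖F n‖ ≤ C := by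
    intro F hF
    induction hF using Algebra.adjoin_induction with
    | mem x hx => exact D.bdd x hx
    | algebraMap r => exact ⟨‖r‖, fun n => by simp⟩
    | add x y _ _ hx hy =>
      obtain ⟨C, hC⟩ := hx
      obtain ⟨C', hC'⟩ := hy
      exact ⟨C + C', fun n => (norm_add_le _ _).trans (add_le_add (hC n) (hC' n))⟩
    | mul x y _ _ hx hy =>
      obtain ⟨C, hC⟩ := hx
      obtain ⟨C', hC'⟩ := hy
      refine ⟨C * C', fun n => ?_⟩
      rw [Pi.mul_apply, norm_mul]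
      exact mul_le_mul (hC n) (hC' n) (norm_nonneg _) ((norm_nonneg _).trans (hC n))
  induction hh using Algebra.adjoin_induction with
  | mem x hx =>
    rcases hx with ⟨F, hFc, hFd, hf⟩ | ⟨r, hr, s, hs, rfl⟩
    · refine ⟨algebraMap ℂ (ℕ → ℂ) (F 1), (Algebra.adjoin ℂ (S : Set (ℕ → ℂ))).algebraMap_mem _, ?_⟩
      have h1 : Tendsto (fun n => F (zn n)) atTop (𝓝 (F 1)) :=
        (hFc 1 one_mem_closedBall).tendsto.comp zn_tendsto_within
      have h2 := h1.sub_const (F 1)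
      rw [sub_self] at h2
      refine h2.congr (fun n => ?_)
      rw [hf]
      rfl
    · obtain ⟨C, hC⟩ := D.bdd r hr
      refine ⟨r, Algebra.subset_adjoin hr, ?_⟩
      refine (UU_zn hC hs).congr (fun n => ?_)
      rw [D.hu r hr s hs]
  | algebraMap r =>
    refine ⟨algebraMap ℂ (ℕ → ℂ) r, (Algebra.adjoin ℂ (S : Set (ℕ → ℂ))).algebraMap_mem _, ?_⟩
    have : (fun n => e ⟨zn n, zn_mem n⟩ ((algebraMap ℂ B) r) - (algebraMap ℂ (ℕ → ℂ)) r n) = fun _ => 0 := by
      funext n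
      rw [AlgHom.commutes]
      simp
    rw [this]
    exact tendsto_const_nhds
  | add x y _ _ hx hy =>
    obtain ⟨F, hF, hF'⟩ := hx
    obtain ⟨G, hG, hG'⟩ := hy
    refine ⟨F + G, Subalgebra.add_mem _ hF hG, ?_⟩
    have := hF'.add hG'
    rw [add_zero] at this
    refine this.congr (fun n => ?_)
    rw [map_add, Pi.add_apply]
    ring
  | mul x y _ _ hx hy =>
    obtain ⟨F, hF, hF'⟩ := hx
    obtain ⟨G, hG, hG'⟩ := hy
    obtain ⟨C, hC⟩ := hbd F hF
    refine ⟨F * G, Subalgebra.mul_mem _ hF hG, ?_⟩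
    have hC0 : 0 ≤ C := (norm_nonneg _).trans (hC 0)
    apply squeeze_zero_norm (a := fun n => ‖e ⟨zn n, zn_mem n⟩ x - F n‖ * ‖y‖ + C * ‖e ⟨zn n, zn_mem n⟩ y - G n‖)
    · intro n
      rw [map_mul, Pi.mul_apply]
      have h1 : e ⟨zn n, zn_mem n⟩ x * e ⟨zn n, zn_mem n⟩ y - F n * G n =
        (e ⟨zn n, zn_mem n⟩ x - F n) * e ⟨zn n, zn_mem n⟩ y + F n * (e ⟨zn n, zn_mem n⟩ y - G n) := by ring
      rw [h1]
      refine (norm_add_le _ _).trans (add_le_add ?_ ?_)
      · rw [norm_mul]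
        exact mul_le_mul_of_nonneg_left (D.he.le_norm y _) (norm_nonneg _)
      · rw [norm_mul]
        exact mul_le_mul_of_nonneg_right (hC n) (norm_nonneg _)
    · have := (hF'.norm.mul_const ‖y‖).add (hG'.norm.const_mul C)
      simpa using this

/-- There is a character over `1`, at level one, killing the unimodular coordinate. -/
theorem exists_char (D : Data e idX S u)
    (hd : ∀ x : B, x ∈ closure (Algebra.adjoin ℂ (gens e S u) : Set B))
    {Z : ℕ → ℂ} (hZ : Z ∈ S) (hZ1 : ∀ n, ‖Z n‖ = 1)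
    (hinv : ∀ F ∈ Algebra.adjoin ℂ (S : Set (ℕ → ℂ)), ¬ ∀ᶠ n in atTop, ‖Z n * F n - 1‖ ≤ 1/2) :
    ∃ φ : WeakDual.characterSpace ℂ B, φ idX = 1 ∧ φ (u (fun _ => 1) 1) = 1 ∧ φ (u Z 1) = 0 := by
  set I : Ideal B := Ideal.span {1 - idX, 1 - u (fun _ => 1) 1, u Z 1} with hI
  have hItop : I ≠ ⊤ := by
    intro htop
    have h1 : (1:B) ∈ I := htop ▸ Submodule.mem_top
    rw [hI, Ideal.span, Submodule.mem_span_triple] at h1
    obtain ⟨a, b, c, habc⟩ := h1
    simp only [smul_eq_mul] at habc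
    -- approximate c
    obtain ⟨g, hg, hgc⟩ := Metric.mem_closure_iff.1 (hd c) (1/4) (by norm_num)
    rw [dist_eq_norm] at hgc
    obtain ⟨F, hF, hF'⟩ := sample_adjoin D hg
    apply hinv F hF
    let ee : ℕ → B →ₐ[ℂ] ℂ := fun n => e ⟨zn n, zn_mem n⟩
    have hev : ∀ n, ee n a * (1 - zn n) + ee n b * (1 - UU (fun _ => 1) 1 (zn n)) + ee n c * UU Z 1 (zn n) = 1 := by
      intro n
      have := congrArg (ee n) habc
      rw [map_add, map_add, map_mul, map_mul, map_mul, map_sub, map_sub, map_one] at this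
      simp only [ee] at this ⊢
      rw [D.hid, D.hu _ one_mem_S 1 one_pos, D.hu Z hZ 1 one_pos] at this
      exact this
    have t1 : Tendsto (fun n => ee n a * (1 - zn n)) atTop (𝓝 0) := by
      apply squeeze_zero_norm (a := fun n => ‖a‖ * ‖1 - zn n‖)
      · intro n
        rw [norm_mul]
        exact mul_le_mul_of_nonneg_right (D.he.le_norm a _) (norm_nonneg _)
      · have := ((zn_tendsto.const_sub 1).norm).const_mul ‖a‖
        simpa using this
    have t2 : Tendsto (fun n => ee n b * (1 - UU (fun _ => 1) 1 (zn n))) atTop (𝓝 0) := by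
      apply squeeze_zero_norm (a := fun n => ‖b‖ * ‖1 - UU (fun _ => 1) 1 (zn n)‖)
      · intro n
        rw [norm_mul]
        exact mul_le_mul_of_nonneg_right (D.he.le_norm b _) (norm_nonneg _)
      · have h2 := UU_zn (a := fun _ => (1:ℂ)) (C := 1) (by simp) (s := 1) one_pos
        have := (h2.norm).const_mul ‖b‖
        rw [norm_zero, mul_zero] at this
        refine this.congr (fun n => ?_)
        rw [norm_sub_rev]
    have t3 : Tendsto (fun n => ee n c * (UU Z 1 (zn n) - Z n)) atTop (𝓝 0) := by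
      apply squeeze_zero_norm (a := fun n => ‖c‖ * ‖UU Z 1 (zn n) - Z n‖)
      · intro n
        rw [norm_mul]
        exact mul_le_mul_of_nonneg_right (D.he.le_norm c _) (norm_nonneg _)
      · have h2 := UU_zn (a := Z) (C := 1) (fun n => (hZ1 n).le) (s := 1) one_pos
        have := (h2.norm).const_mul ‖c‖
        simpa using this
    have t4 : Tendsto (fun n => ‖ee n a * (1 - zn n)‖ + ‖ee n b * (1 - UU (fun _ => 1) 1 (zn n))‖
        + ‖ee n c * (UU Z 1 (zn n) - Z n)‖ + ‖ee n g - F n‖) atTop (𝓝 0) := by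
      have := ((t1.norm.add t2.norm).add t3.norm).add hF'.norm
      simpa using this
    filter_upwards [t4.eventually (gt_mem_nhds (show (0:ℝ) < 1/4 by norm_num))] with n hn
    have h5 : Z n * F n - 1 = -(ee n a * (1 - zn n)) + -(ee n b * (1 - UU (fun _ => 1) 1 (zn n)))
        + -(ee n c * (UU Z 1 (zn n) - Z n)) + (-(Z n * (ee n g - F n)) + -(Z n * (ee n c - ee n g))) := by
      linear_combination hev n
    rw [h5]
    have h6 : ‖ee n c - ee n g‖ ≤ 1/4 := by
      rw [← map_sub]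
      exact (D.he.le_norm _ _).trans hgc.le
    refine (norm_add_le _ _).trans ?_
    have h7 := (norm_add_le (-(ee n a * (1 - zn n)) + -(ee n b * (1 - UU (fun _ => 1) 1 (zn n))))
      (-(ee n c * (UU Z 1 (zn n) - Z n))))
    have h8 := norm_add_le (-(ee n a * (1 - zn n))) (-(ee n b * (1 - UU (fun _ => 1) 1 (zn n))))
    have h9 := norm_add_le (-(Z n * (ee n g - F n))) (-(Z n * (ee n c - ee n g)))
    have h10 : ‖Z n * (ee n g - F n)‖ = ‖ee n g - F n‖ := by rw [norm_mul, hZ1, one_mul]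
    have h11 : ‖Z n * (ee n c - ee n g)‖ = ‖ee n c - ee n g‖ := by rw [norm_mul, hZ1, one_mul]
    rw [norm_neg, norm_neg] at h8 h9
    rw [norm_neg] at h7
    rw [h10, h11] at h9
    linarith
  obtain ⟨M, hM, hIM⟩ := Ideal.exists_le_maximal I hItop
  have := hM
  refine ⟨M.toCharacterSpace, ?_, ?_, ?_⟩
  · have h1 : (1 - idX) ∈ M := hIM (Ideal.subset_span (by simp))
    have h2 := Ideal.toCharacterSpace_apply_eq_zero_of_mem M h1
    rw [map_sub, map_one, sub_eq_zero] at h2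
    exact h2.symm
  · have h1 : (1 - u (fun _ => 1) 1) ∈ M := hIM (Ideal.subset_span (by simp))
    have h2 := Ideal.toCharacterSpace_apply_eq_zero_of_mem M h1
    rw [map_sub, map_one, sub_eq_zero] at h2
    exact h2.symm
  · exact Ideal.toCharacterSpace_apply_eq_zero_of_mem M (hIM (Ideal.subset_span (by simp)))

/-- Algebra homomorphism form of `exists_char`. -/
theorem exists_hom (D : Data e idX S u)
    (hd : ∀ x : B, x ∈ closure (Algebra.adjoin ℂ (gens e S u) : Set B))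
    {Z : ℕ → ℂ} (hZ : Z ∈ S) (hZ1 : ∀ n, ‖Z n‖ = 1)
    (hinv : ∀ F ∈ Algebra.adjoin ℂ (S : Set (ℕ → ℂ)), ¬ ∀ᶠ n in atTop, ‖Z n * F n - 1‖ ≤ 1/2) :
    ∃ φ : B →ₐ[ℂ] ℂ, φ idX = 1 ∧ φ (u (fun _ => 1) 1) = 1 ∧ φ (u Z 1) = 0 := by
  obtain ⟨φ, h1, h2, h3⟩ := exists_char D hd hZ hZ1 hinv
  exact ⟨WeakDual.CharacterSpace.toAlgHom φ, h1, h2, h3⟩

end Pool.Agent.Work.MP_a7579f_an
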