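import Mathlib

set_option autoImplicit false

namespace Pool.Agent.Work.MP_a7579f_an

open MvPolynomial Filter

/-- The countable index set: a rational angle and a finite set of flipped signs. -/
abbrev T : Type := ℚ × Finset ℕ

/-- The unimodular coordinate function. -/
noncomputable def Zf (t : T) : ℂ := Complex.exp (((t.1 : ℝ) : ℂ) * Complex.I)

/-- The sign attached to the `j`-th root. -/
def sgn (j : ℕ) (E : Finset ℕ) : ℂ := if j ∈ E then -1 else 1

/-- Some complex square root. -/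
noncomputable def csqrt (w : ℂ) : ℂ :=
  Classical.choose (IsAlgClosed.exists_pow_nat_eq w (n := 2) (by norm_num))

theorem csqrt_sq (w : ℂ) : csqrt w ^ 2 = w :=
  Classical.choose_spec (IsAlgClosed.exists_pow_nat_eq w (n := 2) (by norm_num))

theorem countable_mvp : Countable (MvPolynomial (ℕ ⊕ ℕ) ℤ) := by
  have hinj : Function.Injective (AddMonoidAlgebra.coeff : MvPolynomial (ℕ ⊕ ℕ) ℤ → ((ℕ ⊕ ℕ →₀ ℕ) →₀ ℤ)) := by
    intro a b h
    cases a; cases b
    simpa using h
  exact hinj.countable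

theorem exists_enum : ∃ P : ℕ → MvPolynomial (ℕ ⊕ ℕ) ℤ, ∀ p b, ∃ j, b ≤ j ∧ P j = p := by
  have := countable_mvp
  obtain ⟨f, hf⟩ := exists_surjective_nat (MvPolynomial (ℕ ⊕ ℕ) ℤ)
  refine ⟨fun j => f (Nat.unpair j).1, fun p b => ?_⟩
  obtain ⟨a, ha⟩ := hf p
  exact ⟨Nat.pair a b, Nat.right_le_pair a b, by simp [ha]⟩

/-- An enumeration of the polynomials in which each one appears arbitrarily late. -/
noncomputable def P : ℕ → MvPolynomial (ℕ ⊕ ℕ) ℤ := Classical.choose exists_enum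

theorem P_spec : ∀ p b, ∃ j, b ≤ j ∧ P j = p := Classical.choose_spec exists_enum

/-- The valuation of the variables. -/
noncomputable def val (g : ℕ → ℂ) (z : ℂ) : ℕ ⊕ ℕ → ℂ
  | Sum.inl i => g i
  | Sum.inr 0 => z
  | Sum.inr (k+1) => TopologicalSpace.denseSeq ℂ k

/-- The successive roots, as functions of the index. -/
noncomputable def gf (t : T) : ℕ → ℂ
  | j => sgn j t.2 *
      csqrt (aeval (val (fun i => if _h : i < j then gf t i else 0) (Zf t)) (P j))
termination_by j => j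

/-- The truncated valuation. -/
noncomputable def tval (t : T) (j : ℕ) : ℕ ⊕ ℕ → ℂ :=
  val (fun i => if i < j then gf t i else 0) (Zf t)

theorem gf_eq (t : T) (j : ℕ) : gf t j = sgn j t.2 * csqrt (aeval (tval t j) (P j)) := by
  rw [gf]
  simp [tval]

theorem gf_mul_self (t : T) (j : ℕ) : gf t j * gf t j = aeval (tval t j) (P j) := by
  rw [gf_eq]
  have h1 : sgn j t.2 * sgn j t.2 = 1 := by
    unfold sgn; split_ifs <;> simp
  calc sgn j t.2 * csqrt (aeval (tval t j) (P j)) * (sgn j t.2 * csqrt (aeval (tval t j) (P j)))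
      = (sgn j t.2 * sgn j t.2) * (csqrt (aeval (tval t j) (P j)))^2 := by ring
    _ = _ := by rw [h1, csqrt_sq, one_mul]

/-- Flip the `n`-th sign. -/
def flip (n : ℕ) (t : T) : T := (t.1, symmDiff t.2 {n})

theorem Zf_flip (n : ℕ) (t : T) : Zf (flip n t) = Zf t := rfl

theorem sgn_flip_ne {n i : ℕ} (h : i ≠ n) (t : T) : sgn i (flip n t).2 = sgn i t.2 := by
  unfold sgn flip
  simp [Finset.mem_symmDiff, h]

theorem sgn_flip_self (n : ℕ) (t : T) : sgn n (flip n t).2 = - sgn n t.2 := by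
  unfold sgn flip
  by_cases h : n ∈ t.2 <;> simp [Finset.mem_symmDiff, h]

theorem gf_flip_lt (n : ℕ) (t : T) : ∀ i, i < n → gf (flip n t) i = gf t i := by
  intro i
  induction i using Nat.strong_induction_on with
  | _ i ih =>
    intro hi
    rw [gf_eq, gf_eq, sgn_flip_ne (Nat.ne_of_lt hi)]
    congr 3
    unfold tval
    rw [Zf_flip]
    congr 2
    funext i'
    split_ifs with h
    · exact ih i' h (h.trans hi)
    · rfl

theorem gf_flip_self (n : ℕ) (t : T) : gf (flip n t) n = - gf t n := by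
  rw [gf_eq, gf_eq, sgn_flip_self]
  have : tval (flip n t) n = tval t n := by
    unfold tval
    rw [Zf_flip]
    congr 2
    funext i'
    split_ifs with h
    · exact gf_flip_lt n t i' h
    · rfl
  rw [this]; ring

/-- The roots as elements of the function ring. -/
noncomputable def G (j : ℕ) : T → ℂ := fun t => gf t j

/-- Complex algebra generated by the coordinate and the first `n` roots. -/
noncomputable def Sn (n : ℕ) : Subalgebra ℂ (T → ℂ) :=
  Algebra.adjoin ℂ ({Zf} ∪ G '' {i | i < n})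

theorem Zf_mem (n : ℕ) : Zf ∈ Sn n := Algebra.subset_adjoin (Or.inl rfl)

theorem G_mem {i n : ℕ} (h : i < n) : G i ∈ Sn n := Algebra.subset_adjoin (Or.inr ⟨i, h, rfl⟩)

theorem Sn_mono {m n : ℕ} (h : m ≤ n) : Sn m ≤ Sn n := by
  apply Algebra.adjoin_mono
  apply Set.union_subset_union_right
  apply Set.image_mono
  intro i hi
  exact lt_of_lt_of_le hi h

theorem flip_of_mem {n : ℕ} {F : T → ℂ} (hF : F ∈ Sn n) (t : T) : F (flip n t) = F t := by
  induction hF using Algebra.adjoin_induction with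
  | mem x hx =>
    rcases hx with hx | ⟨i, hi, rfl⟩
    · rw [Set.mem_singleton_iff.1 hx, Zf_flip]
    · exact gf_flip_lt n t i hi
  | algebraMap r => rfl
  | add x y _ _ hx hy => simp [hx, hy]
  | mul x y _ _ hx hy => simp [hx, hy]

/-- Evaluating an integer polynomial at functions lying in a subalgebra. -/
theorem aeval_fun_mem (A : Subalgebra ℂ (T → ℂ)) (v : ℕ ⊕ ℕ → T → ℂ) (hv : ∀ i, v i ∈ A)
    (p : MvPolynomial (ℕ ⊕ ℕ) ℤ) : (fun t => aeval (fun i => v i t) p) ∈ A := by
  induction p using MvPolynomial.induction_on with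
  | C a =>
    have : (fun t : T => aeval (fun i => v i t) (C a : MvPolynomial (ℕ ⊕ ℕ) ℤ)) = algebraMap ℂ (T → ℂ) (a : ℂ) := by
      funext t; simp
    rw [this]
    exact A.algebraMap_mem _
  | add p q hp hq =>
    have : (fun t : T => aeval (fun i => v i t) (p + q)) =
      (fun t : T => aeval (fun i => v i t) p) + (fun t : T => aeval (fun i => v i t) q) := by
      funext t; simp
    rw [this]
    exact A.add_mem hp hq
  | mul_X p i hp =>
    have : (fun t : T => aeval (fun i => v i t) (p * X i)) =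
      (fun t : T => aeval (fun i => v i t) p) * v i := by
      funext t; simp
    rw [this]
    exact A.mul_mem hp (hv i)

theorem val_fun_mem (A : Subalgebra ℂ (T → ℂ)) (g : ℕ → T → ℂ) (hg : ∀ i, g i ∈ A) (hZ : Zf ∈ A)
    (p : MvPolynomial (ℕ ⊕ ℕ) ℤ) : (fun t => aeval (val (fun i => g i t) (Zf t)) p) ∈ A := by
  have h := aeval_fun_mem A (fun s t => val (fun i => g i t) (Zf t) s) (by
    intro s
    rcases s with i | k
    · exact hg i
    · cases k with
      | zero => exact hZ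
      | succ k => exact A.algebraMap_mem (TopologicalSpace.denseSeq ℂ k)) p
  exact h

theorem G_mul_self_mem (n : ℕ) : G n * G n ∈ Sn n := by
  have h := val_fun_mem (Sn n) (fun i => if i < n then G i else 0) (by
    intro i
    split_ifs with h
    · exact G_mem h
    · exact (Sn n).zero_mem) (Zf_mem n) (P n)
  convert h using 1
  funext t
  show gf t n * gf t n = _
  rw [gf_mul_self]
  unfold tval
  congr 3
  funext i
  split_ifs <;> rfl

theorem decomp {n : ℕ} {F : T → ℂ} (hF : F ∈ Sn (n+1)) :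
    ∃ a ∈ Sn n, ∃ b ∈ Sn n, F = a + b * G n := by
  induction hF using Algebra.adjoin_induction with
  | mem x hx =>
    rcases hx with hx | ⟨i, hi, rfl⟩
    · rw [Set.mem_singleton_iff.1 hx]
      exact ⟨Zf, Zf_mem n, 0, (Sn n).zero_mem, by simp⟩
    · rcases Nat.lt_succ_iff_lt_or_eq.1 hi with h | h
      · exact ⟨G i, G_mem h, 0, (Sn n).zero_mem, by simp⟩
      · subst h
        exact ⟨0, (Sn _).zero_mem, 1, (Sn _).one_mem, by simp⟩
  | algebraMap r => exact ⟨algebraMap _ _ r, (Sn n).algebraMap_mem r, 0, (Sn n).zero_mem, by simp⟩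
  | add x y _ _ hx hy =>
    obtain ⟨a, ha, b, hb, rfl⟩ := hx
    obtain ⟨a', ha', b', hb', rfl⟩ := hy
    exact ⟨a + a', (Sn n).add_mem ha ha', b + b', (Sn n).add_mem hb hb', by ring⟩
  | mul x y _ _ hx hy =>
    obtain ⟨a, ha, b, hb, rfl⟩ := hx
    obtain ⟨a', ha', b', hb', rfl⟩ := hy
    refine ⟨a * a' + b * b' * (G n * G n),
      (Sn n).add_mem ((Sn n).mul_mem ha ha') ((Sn n).mul_mem ((Sn n).mul_mem hb hb') (G_mul_self_mem n)),
      a * b' + a' * b, (Sn n).add_mem ((Sn n).mul_mem ha hb') ((Sn n).mul_mem ha' hb), by ring⟩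

theorem base_case (F : T → ℂ) (hF : F ∈ Sn 0) : ¬ ∀ t, ‖Zf t * F t - 1‖ ≤ 1/2 := by
  intro hall
  have h0 : Sn 0 = Algebra.adjoin ℂ {Zf} := by
    unfold Sn; simp
  rw [h0, Algebra.adjoin_singleton_eq_range_aeval] at hF
  obtain ⟨p, rfl⟩ := hF
  have hp : ∀ t, (Polynomial.aeval Zf p) t = p.eval (Zf t) := by
    intro t
    have := Polynomial.aeval_algHom_apply (Pi.evalAlgHom ℂ (fun _ : T => ℂ) t) Zf p
    simp only [Pi.evalAlgHom_apply] at this
    rw [← this]
    simp [Polynomial.aeval_def, Polynomial.eval₂_eq_eval_map]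
  -- extend to the whole circle
  have hcirc : ∀ x : ℝ, ‖Complex.exp ((x : ℂ) * Complex.I) *
      p.eval (Complex.exp ((x : ℂ) * Complex.I)) - 1‖ ≤ 1/2 := by
    have hclosed : IsClosed {x : ℝ | ‖Complex.exp ((x : ℂ) * Complex.I) *
      p.eval (Complex.exp ((x : ℂ) * Complex.I)) - 1‖ ≤ 1/2} := by
      apply isClosed_le _ continuous_const
      have hc : Continuous fun x : ℝ => Complex.exp ((x : ℂ) * Complex.I) := by fun_prop
      exact ((hc.mul (p.continuous.comp hc)).sub continuous_const).norm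
    have hdense : Dense (Set.range ((↑) : ℚ → ℝ)) := Rat.denseRange_cast
    have hsub : Set.range ((↑) : ℚ → ℝ) ⊆ {x : ℝ | ‖Complex.exp ((x : ℂ) * Complex.I) *
      p.eval (Complex.exp ((x : ℂ) * Complex.I)) - 1‖ ≤ 1/2} := by
      rintro _ ⟨q, rfl⟩
      have := hall (q, ∅)
      have h2 := hp (q, ∅)
      change ‖Zf (q, ∅) * (Polynomial.aeval Zf p) (q, ∅) - 1‖ ≤ 1/2 at this
      rw [h2] at this
      exact this
    intro x
    have := hclosed.closure_subset_iff.2 hsub
    rw [hdense.closure_eq] at this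
    exact this (Set.mem_univ x)
  have hmax := Complex.norm_le_of_forall_mem_frontier_norm_le (U := Metric.ball (0:ℂ) 1)
    (f := fun z => z * p.eval z - 1) Metric.isBounded_ball
    (Differentiable.diffContOnCl (by
      exact ((differentiable_id.mul p.differentiable).sub_const 1))) (C := 1/2)
    (by
      intro z hz
      rw [frontier_ball (0:ℂ) one_ne_zero] at hz
      have hz1 : ‖z‖ = 1 := by simpa using hz
      obtain ⟨x, hx⟩ := (Complex.norm_eq_one_iff z).1 hz1
      have := hcirc x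
      rw [hx] at this
      exact this) (z := 0) (subset_closure (Metric.mem_ball_self one_pos))
  norm_num at hmax

theorem no_inverse : ∀ (n : ℕ) (F : T → ℂ), F ∈ Sn n → ¬ ∀ t, ‖Zf t * F t - 1‖ ≤ 1/2
  | 0 => base_case
  | n+1 => by
    intro F hF hall
    obtain ⟨a, ha, b, hb, rfl⟩ := decomp hF
    apply no_inverse n a ha
    intro t
    have h1 := hall t
    have h2 := hall (flip n t)
    simp only [Pi.add_apply, Pi.mul_apply] at h1 h2
    rw [flip_of_mem ha, flip_of_mem hb, Zf_flip] at h2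
    have h3 : G n (flip n t) = - G n t := gf_flip_self n t
    rw [h3] at h2
    have h4 : Zf t * a t - 1 = ((Zf t * (a t + b t * G n t) - 1) + (Zf t * (a t + b t * -G n t) - 1)) / 2 := by
      ring
    rw [h4, norm_div]
    have h5 := norm_add_le (Zf t * (a t + b t * G n t) - 1) (Zf t * (a t + b t * -G n t) - 1)
    have h6 : ‖(2:ℂ)‖ = 2 := by simp
    rw [h6]
    linarith

/-- A sequence in the index set passing infinitely often through each index. -/
theorem exists_seq : ∃ k : ℕ → T, ∀ t, ∃ᶠ n in atTop, k n = t := by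
  obtain ⟨f, hf⟩ := exists_surjective_nat T
  refine ⟨fun n => f (Nat.unpair n).1, fun t => ?_⟩
  obtain ⟨a, ha⟩ := hf t
  rw [Filter.frequently_atTop]
  intro b
  exact ⟨Nat.pair a b, Nat.right_le_pair a b, by simp [ha]⟩

/-- Full evaluation of an integer polynomial. -/
noncomputable def ev (p : MvPolynomial (ℕ ⊕ ℕ) ℤ) (t : T) : ℂ :=
  aeval (val (gf t) (Zf t)) p

/-- A bound for the root variables occurring in a polynomial. -/
noncomputable def vb (p : MvPolynomial (ℕ ⊕ ℕ) ℤ) : ℕ :=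
  p.vars.sup (fun v => match v with | Sum.inl i => i + 1 | Sum.inr _ => 0)

theorem ev_eq_of_vb_le (p : MvPolynomial (ℕ ⊕ ℕ) ℤ) (t : T) {j : ℕ} (hj : vb p ≤ j) :
    ev p t = aeval (tval t j) p := by
  unfold ev
  rw [MvPolynomial.aeval_eq_eval₂Hom, MvPolynomial.aeval_eq_eval₂Hom]
  apply MvPolynomial.eval₂Hom_congr' rfl _ rfl
  intro i hi _
  unfold tval
  rcases i with i | k
  · have h1 : i + 1 ≤ vb p := by
      unfold vb
      exact Finset.le_sup (f := fun v : ℕ ⊕ ℕ => match v with | Sum.inl i => i + 1 | Sum.inr _ => 0) hi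
    have h2 : i < j := by omega
    simp [val, h2]
  · cases k <;> rfl

theorem ev_root (p : MvPolynomial (ℕ ⊕ ℕ) ℤ) : ∃ j, ∀ t, gf t j * gf t j = ev p t := by
  obtain ⟨j, hj, hP⟩ := P_spec p (vb p)
  refine ⟨j, fun t => ?_⟩
  rw [gf_mul_self, hP, ev_eq_of_vb_le p t hj]

theorem ev_mem_Sn (p : MvPolynomial (ℕ ⊕ ℕ) ℤ) : ev p ∈ Sn (vb p) := by
  have h := val_fun_mem (Sn (vb p)) (fun i => if i < vb p then G i else 0) (by
    intro i
    split_ifs with h
    · exact G_mem h
    · exact (Sn (vb p)).zero_mem) (Zf_mem _) p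
  convert h using 1
  funext t
  rw [ev_eq_of_vb_le p t le_rfl]
  unfold tval
  congr 3
  funext i
  split_ifs <;> rfl

/-- The algebra of bounded functions on the index set. -/
def Bd : Subalgebra ℂ (T → ℂ) where
  carrier := {f | ∃ C : ℝ, ∀ t, ‖f t‖ ≤ C}
  mul_mem' := by
    rintro a b ⟨C, hC⟩ ⟨D, hD⟩
    refine ⟨C * D, fun t => ?_⟩
    rw [Pi.mul_apply, norm_mul]
    exact mul_le_mul (hC t) (hD t) (norm_nonneg _) ((norm_nonneg _).trans (hC t))
  add_mem' := by
    rintro a b ⟨C, hC⟩ ⟨D, hD⟩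
    exact ⟨C + D, fun t => (norm_add_le _ _).trans (add_le_add (hC t) (hD t))⟩
  algebraMap_mem' := fun r => ⟨‖r‖, fun t => by simp⟩

theorem norm_Zf (t : T) : ‖Zf t‖ = 1 := Complex.norm_exp_ofReal_mul_I _

theorem Zf_mem_Bd : Zf ∈ Bd := ⟨1, fun t => (norm_Zf t).le⟩

theorem G_mem_Bd : ∀ j, G j ∈ Bd := by
  intro j
  induction j using Nat.strong_induction_on with
  | _ j ih =>
    have h := val_fun_mem Bd (fun i => if i < j then G i else 0) (by
      intro i
      split_ifs with h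
      · exact ih i h
      · exact Bd.zero_mem) Zf_mem_Bd (P j)
    obtain ⟨C, hC⟩ := h
    refine ⟨max 1 C, fun t => ?_⟩
    have h1 := hC t
    have h2 : (aeval (val (fun i => (if i < j then G i else 0) t) (Zf t)) (P j)) = gf t j * gf t j := by
      rw [gf_mul_self]
      unfold tval
      congr 3
      funext i
      split_ifs <;> rfl
    simp only [h2, norm_mul] at h1
    change ‖gf t j‖ ≤ _
    by_contra hcon
    push Not at hcon
    have h3 : 1 < ‖gf t j‖ := (le_max_left _ _).trans_lt hcon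
    have h4 : C < ‖gf t j‖ := (le_max_right _ _).trans_lt hcon
    nlinarith

theorem ev_mem_Bd (p : MvPolynomial (ℕ ⊕ ℕ) ℤ) : ev p ∈ Bd :=
  val_fun_mem Bd G G_mem_Bd Zf_mem_Bd p

/-- The root-closed ring of bounded sequences. -/
theorem exists_rootRing : ∃ (S : Subring (ℕ → ℂ)) (Z : ℕ → ℂ), Z ∈ S ∧ (∀ n, ‖Z n‖ = 1) ∧
    (∀ r ∈ S, ∃ C : ℝ, ∀ n, ‖r n‖ ≤ C) ∧ (∀ r ∈ S, ∃ s ∈ S, s * s = r) ∧
    (∀ (c : ℂ) (ε : ℝ), 0 < ε → ∃ c' : ℂ, ‖c - c'‖ < ε ∧ (fun _ : ℕ => c') ∈ S) ∧
    (∀ F ∈ Algebra.adjoin ℂ (S : Set (ℕ → ℂ)), ¬ ∀ᶠ n in atTop, ‖Z n * F n - 1‖ ≤ 1/2) := by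
  obtain ⟨k, hk⟩ := exists_seq
  let S : Subring (ℕ → ℂ) :=
    { carrier := {f | ∃ p, f = fun n => ev p (k n)}
      mul_mem' := by
        rintro _ _ ⟨p, rfl⟩ ⟨q, rfl⟩
        exact ⟨p * q, by funext n; simp [ev]⟩
      one_mem' := ⟨1, by funext n; simp [ev]⟩
      add_mem' := by
        rintro _ _ ⟨p, rfl⟩ ⟨q, rfl⟩
        exact ⟨p + q, by funext n; simp [ev]⟩
      zero_mem' := ⟨0, by funext n; simp [ev]⟩
      neg_mem' := by
        rintro _ ⟨p, rfl⟩
        exact ⟨-p, by funext n; simp [ev]⟩ }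
  refine ⟨S, fun n => Zf (k n), ⟨X (Sum.inr 0), by funext n; simp [ev, val]⟩,
    fun n => norm_Zf _, ?_, ?_, ?_, ?_⟩
  · rintro _ ⟨p, rfl⟩
    obtain ⟨C, hC⟩ := ev_mem_Bd p
    exact ⟨C, fun n => hC _⟩
  · rintro _ ⟨p, rfl⟩
    obtain ⟨j, hj⟩ := ev_root p
    exact ⟨fun n => gf (k n) j, ⟨X (Sum.inl j), by funext n; simp [ev, val]⟩,
      by funext n; exact hj (k n)⟩
  · intro c ε hε
    have hd := TopologicalSpace.denseRange_denseSeq ℂ
    obtain ⟨y, ⟨m, rfl⟩, hm⟩ := Metric.mem_closure_iff.1 (hd.closure_eq ▸ Set.mem_univ c) ε hε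
    exact ⟨_, by rwa [dist_eq_norm] at hm, ⟨X (Sum.inr (m+1)), by funext n; simp [ev, val]⟩⟩
  · intro F hF hall
    have key : ∃ n, ∃ F' ∈ Sn n, F = fun i => F' (k i) := by
      clear hall
      induction hF using Algebra.adjoin_induction with
      | mem x hx =>
        obtain ⟨p, rfl⟩ := hx
        exact ⟨_, ev p, ev_mem_Sn p, rfl⟩
      | algebraMap r => exact ⟨0, algebraMap _ _ r, (Sn 0).algebraMap_mem r, rfl⟩
      | add x y _ _ hx hy =>
        obtain ⟨n, f, hf, rfl⟩ := hx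
        obtain ⟨m, g, hg, rfl⟩ := hy
        exact ⟨max n m, f + g, (Sn _).add_mem (Sn_mono (le_max_left _ _) hf)
          (Sn_mono (le_max_right _ _) hg), rfl⟩
      | mul x y _ _ hx hy =>
        obtain ⟨n, f, hf, rfl⟩ := hx
        obtain ⟨m, g, hg, rfl⟩ := hy
        exact ⟨max n m, f * g, (Sn _).mul_mem (Sn_mono (le_max_left _ _) hf)
          (Sn_mono (le_max_right _ _) hg), rfl⟩
    obtain ⟨n, F', hF', rfl⟩ := key
    apply no_inverse n F' hF'
    intro t
    obtain ⟨i, hi, h⟩ := ((hk t).and_eventually hall).exists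
    subst hi
    exact h

end Pool.Agent.Work.MP_a7579f_an
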