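import Mathlib
import Pool.Agent.Work.MP_a7579f_an.Roots
import Pool.Agent.Work.MP_a7579f_an.Disc

set_option autoImplicit false

namespace Pool.Agent.Work.MP_a7579f_an

open Filter Topology Metric

/-- Bounded continuous functions on the open unit disc. -/
abbrev BC := BoundedContinuousFunction (Metric.ball (0:ℂ) 1) ℂ

theorem nonempty_disc : Nonempty (Metric.ball (0:ℂ) 1) := ⟨⟨0, by simp⟩⟩

theorem norm_one_BC : ‖(1:BC)‖ = 1 := by
  have := nonempty_disc
  exact norm_one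

theorem normOneClass_sub (X : Subalgebra ℂ BC) : NormOneClass X := ⟨norm_one_BC⟩

attribute [local instance] normOneClass_sub

/-- The algebra of bounded analytic functions. -/
def Hinf : Subalgebra ℂ BC where
  carrier := {f | ∃ F : ℂ → ℂ, DifferentiableOn ℂ F (Metric.ball 0 1) ∧
    ∀ z : Metric.ball (0:ℂ) 1, F z = f z}
  mul_mem' := by
    rintro a b ⟨F, hF, hF'⟩ ⟨G, hG, hG'⟩
    exact ⟨fun z => F z * G z, hF.mul hG, fun z => by
      show F z * G z = a z * b z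
      rw [hF', hG']⟩
  add_mem' := by
    rintro a b ⟨F, hF, hF'⟩ ⟨G, hG, hG'⟩
    exact ⟨fun z => F z + G z, hF.add hG, fun z => by
      show F z + G z = a z + b z
      rw [hF', hG']⟩
  algebraMap_mem' := fun r => ⟨fun _ => r, differentiableOn_const _, fun z => rfl⟩

theorem mem_Hinf (f : BC) : f ∈ Hinf ↔ ∃ F : ℂ → ℂ, DifferentiableOn ℂ F (Metric.ball 0 1) ∧
    ∀ z : Metric.ball (0:ℂ) 1, F z = f z := Iff.rfl

theorem isClosed_Hinf : IsClosed (Hinf : Set BC) := by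
  classical
  apply isClosed_of_closure_subset
  intro f hf
  obtain ⟨x, hx, hlim⟩ := mem_closure_iff_seq_limit.1 hf
  choose F hF hF' using fun n => hx n
  refine ⟨fun z => if hz : z ∈ Metric.ball (0:ℂ) 1 then f ⟨z, hz⟩ else 0, ?_, fun z => by simp⟩
  apply TendstoLocallyUniformlyOn.differentiableOn (φ := atTop) (F := F) _
    (Eventually.of_forall hF) isOpen_ball
  apply TendstoUniformlyOn.tendstoLocallyUniformlyOn
  rw [Metric.tendstoUniformlyOn_iff]
  intro ε hε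
  rw [Metric.tendsto_nhds] at hlim
  filter_upwards [hlim ε hε] with n hn z hz
  rw [dif_pos hz]
  have h1 := hF' n ⟨z, hz⟩
  simp only at h1
  rw [h1, dist_comm]
  exact (BoundedContinuousFunction.dist_coe_le_dist ⟨z, hz⟩).trans_lt hn

/-- Make a bounded continuous function. -/
noncomputable def mkB (f : ℂ → ℂ) (hf : ContinuousOn f (ball (0:ℂ) 1)) (C : ℝ)
    (hC : ∀ z ∈ ball (0:ℂ) 1, ‖f z‖ ≤ C) : BC :=
  BoundedContinuousFunction.ofNormedAddCommGroup (fun z : Metric.ball (0:ℂ) 1 => f z)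
    (continuousOn_iff_continuous_domRestrict.1 hf) C (fun z => hC z z.2)

/-- Evaluation on the full algebra of bounded functions. -/
noncomputable def evalBC (z : Metric.ball (0:ℂ) 1) : BC →ₐ[ℂ] ℂ where
  toFun f := f z
  map_one' := rfl
  map_mul' _ _ := rfl
  map_zero' := rfl
  map_add' _ _ := rfl
  commutes' _ := rfl

/-- Evaluation on a subalgebra. -/
noncomputable def evalX (X : Subalgebra ℂ BC) (z : Metric.ball (0:ℂ) 1) : X →ₐ[ℂ] ℂ :=
  (evalBC z).comp X.val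

theorem evalX_apply (X : Subalgebra ℂ BC) (z : Metric.ball (0:ℂ) 1) (f : X) : evalX X z f = f.1 z := rfl

theorem evals_X (X : Subalgebra ℂ BC) : Evals (evalX X) where
  le_norm f z := BoundedContinuousFunction.norm_coe_le_norm (f : BC) z
  norm_le f _ hC h := (BoundedContinuousFunction.norm_le (f := (f : BC)) hC).2 h

/-- The generating set inside the bounded functions. -/
def gensBC (S : Subring (ℕ → ℂ)) : Set BC :=
  {f | ∃ F : ℂ → ℂ, ContinuousOn F (Metric.closedBall 0 1) ∧ DifferentiableOn ℂ F (Metric.ball 0 1) ∧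
    ∀ z : Metric.ball (0:ℂ) 1, f z = F z} ∪
  {f | ∃ r ∈ S, ∃ s : ℝ, 0 < s ∧ ∀ z : Metric.ball (0:ℂ) 1, f z = UU r s z}

/-- The counterexample algebra. -/
noncomputable def XX (S : Subring (ℕ → ℂ)) : Subalgebra ℂ BC :=
  (Algebra.adjoin ℂ (gensBC S)).topologicalClosure

theorem isClosed_XX (S : Subring (ℕ → ℂ)) : IsClosed (XX S : Set BC) :=
  Subalgebra.isClosed_topologicalClosure _

theorem complete_XX (S : Subring (ℕ → ℂ)) : CompleteSpace (XX S) := (isClosed_XX S).completeSpace_coe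

attribute [local instance] complete_XX

theorem gensBC_le (S : Subring (ℕ → ℂ)) {f : BC} (hf : f ∈ gensBC S) : f ∈ XX S :=
  Subalgebra.le_topologicalClosure _ (Algebra.subset_adjoin hf)

theorem disc_mem (S : Subring (ℕ → ℂ)) (F : ℂ → ℂ) (hFc : ContinuousOn F (Metric.closedBall 0 1))
    (hFd : DifferentiableOn ℂ F (Metric.ball 0 1)) :
    ∃ f ∈ XX S, ∀ z : Metric.ball (0:ℂ) 1, f z = F z := by
  obtain ⟨C, hC⟩ := (isCompact_closedBall (0:ℂ) 1).exists_bound_of_continuousOn hFc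
  refine ⟨mkB F (hFc.mono ball_subset_closedBall) C (fun z hz => hC z (ball_subset_closedBall hz)), ?_,
    fun z => rfl⟩
  exact gensBC_le S (Or.inl ⟨F, hFc, hFd, fun z => rfl⟩)

theorem XX_le (S : Subring (ℕ → ℂ)) (hS : ∀ r ∈ S, ∃ C : ℝ, ∀ n, ‖r n‖ ≤ C) : XX S ≤ Hinf := by
  refine Subalgebra.topologicalClosure_minimal ?_ isClosed_Hinf
  rw [Algebra.adjoin_le_iff]
  rintro f (⟨F, hFc, hFd, hf⟩ | ⟨r, hr, s, hs, hf⟩)
  · exact ⟨F, hFd, fun z => (hf z).symm⟩
  · obtain ⟨C, hC⟩ := hS r hr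
    exact ⟨UU r s, UU_differentiableOn hC hs, fun z => (hf z).symm⟩

theorem exists_u (S : Subring (ℕ → ℂ)) (hS : ∀ r ∈ S, ∃ C : ℝ, ∀ n, ‖r n‖ ≤ C) (r : ℕ → ℂ) (s : ℝ) :
    ∃ f : XX S, r ∈ S → 0 < s → ∀ z, evalX (XX S) z f = UU r s z := by
  by_cases h : r ∈ S ∧ 0 < s
  · obtain ⟨hr, hs⟩ := h
    obtain ⟨C, hC⟩ := hS r hr
    obtain ⟨D, hD⟩ := UU_bounded hC hs
    refine ⟨⟨mkB (UU r s) (UU_differentiableOn hC hs).continuousOn D
      (fun z hz => hD z (ball_subset_closedBall hz)), ?_⟩, fun _ _ z => rfl⟩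
    exact gensBC_le S (Or.inr ⟨r, hr, s, hs, fun z => rfl⟩)
  · exact ⟨0, fun hr hs => absurd ⟨hr, hs⟩ h⟩

/-- Density of the algebra generated inside the closure. -/
theorem dense_gens (S : Subring (ℕ → ℂ)) (u : (ℕ → ℂ) → ℝ → XX S)
    (hu : ∀ r ∈ S, ∀ s : ℝ, 0 < s → ∀ z, evalX (XX S) z (u r s) = UU r s z) (x : XX S) :
    x ∈ closure (Algebra.adjoin ℂ (gens (evalX (XX S)) S u) : Set (XX S)) := by
  have hle : ∀ y ∈ Algebra.adjoin ℂ (gensBC S), ∀ hy : y ∈ XX S,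
      (⟨y, hy⟩ : XX S) ∈ Algebra.adjoin ℂ (gens (evalX (XX S)) S u) := by
    intro y hy
    induction hy using Algebra.adjoin_induction with
    | mem y hy =>
      intro hy'
      apply Algebra.subset_adjoin
      rcases hy with ⟨F, hFc, hFd, hf⟩ | ⟨r, hr, s, hs, hf⟩
      · exact Or.inl ⟨F, hFc, hFd, fun z => hf z⟩
      · refine Or.inr ⟨r, hr, s, hs, ?_⟩
        apply eq_of_evals (evals_X _)
        intro z
        rw [hu r hr s hs]
        exact hf z
    | algebraMap r =>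
      intro hy'
      exact Subalgebra.algebraMap_mem _ r
    | add a b ha hb iha ihb =>
      intro hy'
      have h1 : a ∈ XX S := Subalgebra.le_topologicalClosure _ ha
      have h2 : b ∈ XX S := Subalgebra.le_topologicalClosure _ hb
      exact Subalgebra.add_mem _ (iha h1) (ihb h2)
    | mul a b ha hb iha ihb =>
      intro hy'
      have h1 : a ∈ XX S := Subalgebra.le_topologicalClosure _ ha
      have h2 : b ∈ XX S := Subalgebra.le_topologicalClosure _ hb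
      exact Subalgebra.mul_mem _ (iha h1) (ihb h2)
  have hx : (x : BC) ∈ closure (Algebra.adjoin ℂ (gensBC S) : Set BC) := x.2
  rw [Metric.mem_closure_iff] at hx ⊢
  intro ε hε
  obtain ⟨y, hy, hxy⟩ := hx ε hε
  have hy' : y ∈ XX S := Subalgebra.le_topologicalClosure _ hy
  exact ⟨⟨y, hy'⟩, hle y hy hy', hxy⟩

/-- The character space of a subalgebra of the bounded functions. -/
theorem exists_character (X : Subalgebra ℂ BC) [CompleteSpace X] (φ : X →ₐ[ℂ] ℂ) :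
    ∃ ρ : WeakDual.characterSpace ℂ X, ∀ f : X, ρ f = φ f := by
  have hcont : Continuous φ := hom_continuous φ
  let ρ0 : WeakDual ℂ X := StrongDual.toWeakDual ⟨φ.toLinearMap, hcont⟩
  refine ⟨⟨ρ0, ?_, ?_⟩, fun f => rfl⟩
  · intro h
    have h1 : ρ0 (1 : X) = 0 := by rw [h]; rfl
    have h2 : ρ0 (1 : X) = 1 := map_one φ
    rw [h2] at h1
    exact one_ne_zero h1
  · intro x y
    exact map_mul φ x y

/-- Evaluation at a point as a character of a subalgebra. -/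
theorem exists_eval_char (H : Subalgebra ℂ BC) (z : Metric.ball (0:ℂ) 1) :
    ∃ ρ : WeakDual.characterSpace ℂ H, ∀ f : H, ρ f = f.1 z := by
  have hcont : Continuous (evalX H z) :=
    AddMonoidHomClass.continuous_of_bound (evalX H z) 1
      (fun f => by rw [one_mul]; exact (evals_X H).le_norm f z)
  let ρ0 : WeakDual ℂ H := StrongDual.toWeakDual ⟨(evalX H z).toLinearMap, hcont⟩
  refine ⟨⟨ρ0, ?_, ?_⟩, fun f => rfl⟩
  · intro h
    have h1 : ρ0 (1 : H) = 0 := by rw [h]; rfl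
    have h2 : ρ0 (1 : H) = 1 := map_one (evalX H z)
    rw [h2] at h1
    exact one_ne_zero h1
  · intro x y
    exact map_mul (evalX H z) x y

/-- Characters as algebra homomorphisms. -/
theorem exists_algHom (X : Subalgebra ℂ BC) (ρ : WeakDual.characterSpace ℂ X) :
    ∃ φ : X →ₐ[ℂ] ℂ, ∀ f : X, φ f = ρ f :=
  ⟨WeakDual.CharacterSpace.toAlgHom ρ, fun _ => rfl⟩

theorem not_dense_of (X : Subalgebra ℂ BC) (φ : WeakDual.characterSpace ℂ X) (f1 f2 f3 : X)
    (h1 : φ f1 = 1) (h2 : φ f2 = 1) (h3 : φ f3 = 0)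
    (hf1 : ∀ z : Metric.ball (0:ℂ) 1, (f1 : BC) z = z) {δ : ℝ} (hδ : 0 < δ)
    (hf : ∀ z : Metric.ball (0:ℂ) 1, ‖(z:ℂ) - 1‖ < δ → ‖(f2 : BC) z‖ ≤ ‖(f3 : BC) z‖ + 1/4) :
    ¬ Dense {φ : WeakDual.characterSpace ℂ X |
      ∃ z : Metric.ball (0:ℂ) 1, ∀ f : X, φ f = f.1 z} := by
  intro hdense
  have hcont : ∀ f : X, Continuous (fun ψ : WeakDual.characterSpace ℂ X => ψ f) := by
    intro f
    exact (WeakDual.eval_continuous f).comp continuous_subtype_val
  set O : Set (WeakDual.characterSpace ℂ X) :=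
    {ψ | ‖ψ f1 - 1‖ < δ} ∩ {ψ | ‖ψ f2 - 1‖ < 1/4} ∩ {ψ | ‖ψ f3‖ < 1/4} with hO
  have hOo : IsOpen O := by
    apply IsOpen.inter (IsOpen.inter _ _) _
    · exact isOpen_lt ((hcont f1).sub continuous_const).norm continuous_const
    · exact isOpen_lt ((hcont f2).sub continuous_const).norm continuous_const
    · exact isOpen_lt (hcont f3).norm continuous_const
  have hφO : φ ∈ O := by
    refine ⟨⟨?_, ?_⟩, ?_⟩
    · simp [h1, hδ]
    · simp [h2]
    · simp [h3]
  obtain ⟨ψ, hψO, z, hz⟩ := hdense.inter_open_nonempty O hOo ⟨φ, hφO⟩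
  obtain ⟨⟨hψ1, hψ2⟩, hψ3⟩ := hψO
  simp only [Set.mem_ofPred_eq] at hψ1 hψ2 hψ3
  rw [hz, hf1] at hψ1
  rw [hz] at hψ2
  rw [hz] at hψ3
  have h4 := hf z hψ1
  have h5 := norm_sub_norm_le (1:ℂ) (1 - (f2 : BC) z)
  rw [sub_sub_cancel, norm_one] at h5
  rw [norm_sub_rev] at hψ2
  linarith

/-- The counterexample, in the form needed. -/
theorem exists_counterexample : ∃ X : Subalgebra ℂ BC, X ≤ Hinf ∧ IsClosed (X : Set BC) ∧
    (∀ F : ℂ → ℂ, ContinuousOn F (Metric.closedBall 0 1) → DifferentiableOn ℂ F (Metric.ball 0 1) →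
      ∃ f ∈ X, ∀ z : Metric.ball (0:ℂ) 1, f z = F z) ∧
    ¬ Dense {φ : WeakDual.characterSpace ℂ X |
      ∃ z : Metric.ball (0:ℂ) 1, ∀ f : X, φ f = f.1 z} ∧
    ∀ χ ψ : WeakDual.characterSpace ℂ X, χ ≠ ψ →
      (∃ c : ℝ, c < 2 ∧ ∀ f : X, ‖f‖ ≤ 1 → ‖χ f - ψ f‖ ≤ c) →
      ∃ z : Metric.ball (0:ℂ) 1, ∀ f : X, χ f = f.1 z := by
  obtain ⟨S, Z, hZ, hZ1, hbdd, hroot, hconst, hinv⟩ := exists_rootRing
  choose u hu using exists_u S hbdd
  obtain ⟨idB, hidB, hidB'⟩ := disc_mem S (fun z => z) continuousOn_id differentiableOn_id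
  have D : Data (evalX (XX S)) (⟨idB, hidB⟩ : XX S) S u :=
    { he := evals_X _
      hid := fun z => hidB' z
      bdd := hbdd
      root := hroot
      const := hconst
      hu := fun r hr s hs z => hu r s hr hs z }
  have hA : ContainsDisc (evalX (XX S)) := by
    intro F hFc hFd
    obtain ⟨f, hf, hf'⟩ := disc_mem S F hFc hFd
    exact ⟨⟨f, hf⟩, hf'⟩
  have hd := dense_gens S u (fun r hr s hs z => hu r s hr hs z)
  have hnd : ¬ Dense {φ : WeakDual.characterSpace ℂ (XX S) |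
      ∃ z : Metric.ball (0:ℂ) 1, ∀ f : XX S, φ f = f.1 z} := by
    obtain ⟨φ, h1, h2, h3⟩ := exists_hom D hd hZ hZ1 hinv
    obtain ⟨ρ, hρ⟩ := exists_character (XX S) φ
    have hev := UU_unimod hZ1 (s := 1) one_pos (ε := 1/4) (by norm_num)
    rw [Filter.Eventually, Metric.mem_nhdsWithin_iff] at hev
    obtain ⟨δ, hδ, hev⟩ := hev
    refine not_dense_of (XX S) ρ _ _ _ ((hρ _).trans h1) ((hρ _).trans h2) ((hρ _).trans h3) hidB' hδ ?_
    intro z hz
    have h4 := hev ⟨by rw [mem_ball, dist_eq_norm]; exact hz, ball_subset_closedBall z.2⟩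
    simp only [Set.mem_ofPred_eq] at h4
    have h5 := hu (fun _ => 1) 1 one_mem_S one_pos z
    have h6 := hu Z 1 hZ one_pos z
    rw [evalX_apply] at h5 h6
    rw [h5, h6]
    exact h4
  refine ⟨XX S, XX_le S hbdd, isClosed_XX S, disc_mem S, hnd, ?_⟩
  rintro χ ψ hne ⟨c, hc, hχψ⟩
  obtain ⟨χ', hχ'⟩ := exists_algHom (XX S) χ
  obtain ⟨ψ', hψ'⟩ := exists_algHom (XX S) ψ
  obtain ⟨z, hz⟩ := part_main D hA hd χ' ψ' hc (fun f hf => by rw [hχ', hψ']; exact hχψ f hf) (by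
      intro h
      apply hne
      apply WeakDual.CharacterSpace.ext
      intro x
      rw [← hχ', ← hψ', h])
  refine ⟨z, fun f => ?_⟩
  rw [← hχ', hz]
  rfl

end Pool.Agent.Work.MP_a7579f_an
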